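import Pool.Agent.Helper70.DK.Defs3

/-! Segments over an arbitrary interval of heights. -/

namespace Pool.Agent.Helper70.DK

open Finset MeasureTheory

/-- (M) for segments over `[t0, t1]` -/
def ST_MTHM : Prop :=
  ∀ (m b L N : ℕ) (R t0 t1 ε : ℝ), 1 ≤ m → 2 ≤ b → 1 ≤ L → 1 ≤ N → 0 ≤ R → t0 < t1 → 0 < ε → ∃ c : ℝ, 0 < c ∧
    ∀ (a : (Fin m → ℝ) → Fin m → ℝ) (E : Set (EuclideanSpace ℝ (Fin (m + 1)))), Sticky a b R → Cplx a b L N →
      (∀ x ∈ cube m, ∀ t : ℝ, t0 ≤ t → t ≤ t1 → pt (fun c => a x c + t * x c) t ∈ E) →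
      ∀ δ : ℝ, 0 < δ → δ < 1 →
        ENNReal.ofReal (c * δ ^ (Real.log N / (L * Real.log b) + ε)) ≤ volume (Metric.thickening δ E)

/-- (H) for segments over `[t0, t1]` -/
def ST_HTHM : Prop :=
  ∀ (m b L N : ℕ) (R t0 t1 : ℝ), 1 ≤ m → 2 ≤ b → 1 ≤ L → 1 ≤ N → 0 ≤ R → t0 < t1 →
    ∀ (a : (Fin m → ℝ) → Fin m → ℝ) (E : Set (EuclideanSpace ℝ (Fin (m + 1)))), Sticky a b R → Cplx a b L N →
      FinInc a b →
      (∀ x ∈ cube m, ∀ t : ℝ, t0 ≤ t → t ≤ t1 → pt (fun c => a x c + t * x c) t ∈ E) →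
      ENNReal.ofReal ((m : ℝ) + 1 - Real.log N / (L * Real.log b)) ≤ dimH E

/-- the transformed position map -/
def wr_a {m : ℕ} (a : (Fin m → ℝ) → Fin m → ℝ) (lam t0 : ℝ) : (Fin m → ℝ) → Fin m → ℝ :=
  fun x c => lam * a x c + lam * t0 * x c

open Classical in
/-- the transformation of the patterns -/
noncomputable def wr_F {m : ℕ} (lam t0 : ℝ) (p : (Fin m → ℝ) → Fin m → ℝ) : (Fin m → ℝ) → Fin m → ℝ :=
  fun x c => if x ∈ cube m then lam * p x c + lam * t0 * x c else 0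

theorem wr_pat {m : ℕ} (a : (Fin m → ℝ) → Fin m → ℝ) (lam t0 : ℝ) (b j : ℕ) (hb : 2 ≤ b) (i : Fin m → ℤ) :
    pat (wr_a a lam t0) b j i = wr_F lam t0 (pat a b j i) := by
  have hb0 : (0 : ℝ) < b := by exact_mod_cast (by omega : 0 < b)
  have hj : (0 : ℝ) < (b : ℝ) ^ j := by positivity
  funext x c
  unfold wr_F pat wr_a
  by_cases hx : x ∈ cube m
  · simp only [if_pos hx]
    field_simp
    ring
  · simp only [if_neg hx]

theorem wr_sticky {m : ℕ} (a : (Fin m → ℝ) → Fin m → ℝ) (lam t0 R : ℝ) (hlam : 0 ≤ lam) (b : ℕ) (hb : 2 ≤ b)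
    (h : Sticky a b R) : Sticky (wr_a a lam t0) b (lam * R + lam * |t0|) := by
  intro j i hi x hx c
  rw [wr_pat a lam t0 b j hb i]
  unfold wr_F
  rw [if_pos hx]
  have h1 := h j i hi x hx c
  have h2 := hx c
  have h3 : |x c| ≤ 1 := by rw [abs_of_nonneg h2.1]; exact h2.2.le
  calc |lam * pat a b j i x c + lam * t0 * x c| ≤ |lam * pat a b j i x c| + |lam * t0 * x c| := abs_add_le _ _
    _ = lam * |pat a b j i x c| + lam * |t0| * |x c| := by rw [abs_mul, abs_mul, abs_mul, abs_of_nonneg hlam]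
    _ ≤ lam * R + lam * |t0| := by
        have h4 : lam * |t0| * |x c| ≤ lam * |t0| * 1 := mul_le_mul_of_nonneg_left h3 (by positivity)
        have h5 : lam * |pat a b j i x c| ≤ lam * R := mul_le_mul_of_nonneg_left h1 hlam
        linarith

theorem wr_grid_finite (m N : ℕ) : (grid m N).Finite := by
  have h : grid m N ⊆ ((Fintype.piFinset (fun _ : Fin m => Finset.Ico (0 : ℤ) (N : ℤ)) : Finset (Fin m → ℤ)) :
      Set (Fin m → ℤ)) := by
    intro i hi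
    rw [Finset.mem_coe, Fintype.mem_piFinset]
    intro c
    rw [Finset.mem_Ico]
    exact hi c
  exact (Finset.finite_toSet _).subset h

theorem wr_cplx {m : ℕ} (a : (Fin m → ℝ) → Fin m → ℝ) (lam t0 : ℝ) (b L N : ℕ) (hb : 2 ≤ b)
    (h : Cplx a b L N) : Cplx (wr_a a lam t0) b L N := by
  intro j i hi
  refine le_trans ?_ (h j i hi)
  have : ((fun w : Fin m → ℤ => pat (wr_a a lam t0) b (j + L) (fun c => (b : ℤ) ^ L * i c + w c)) ''
      grid m (b ^ L)) = wr_F lam t0 '' ((fun w : Fin m → ℤ => pat a b (j + L) (fun c => (b : ℤ) ^ L * i c + w c)) ''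
      grid m (b ^ L)) := by
    rw [Set.image_image]
    apply Set.image_congr
    intro w _
    exact wr_pat a lam t0 b (j + L) hb _
  rw [this]
  exact Set.ncard_image_le ((wr_grid_finite m _).image _)

theorem wr_fininc {m : ℕ} (a : (Fin m → ℝ) → Fin m → ℝ) (lam t0 : ℝ) (b : ℕ) (hb : 2 ≤ b)
    (h : FinInc a b) : FinInc (wr_a a lam t0) b := by
  have hb0 : (0 : ℝ) < b := by exact_mod_cast (by omega : 0 < b)
  unfold FinInc at h ⊢
  refine ((h.prod (wr_grid_finite m b)).image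
    (fun z : (Fin m → ℝ) × (Fin m → ℤ) => fun c => lam * z.1 c + lam * t0 * ((z.2 c : ℝ) / b))).subset ?_
  rintro v ⟨j, i, hi, d, hd, rfl⟩
  refine ⟨(pat a b j i (fun c => (d c : ℝ) / b), d), ⟨⟨j, i, hi, d, hd, rfl⟩, hd⟩, ?_⟩
  rw [wr_pat a lam t0 b j hb i]
  funext c
  unfold wr_F
  rw [if_pos]
  intro c'
  have h1 := hd c'
  constructor
  · exact div_nonneg (by exact_mod_cast h1.1) hb0.le
  · rw [div_lt_one hb0]; exact_mod_cast h1.2

/-- the similarity -/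
noncomputable def wr_Phi {m : ℕ} (lam t0 : ℝ) (p : EuclideanSpace ℝ (Fin (m + 1))) : EuclideanSpace ℝ (Fin (m + 1)) :=
  lam • (p - pt 0 t0)

theorem wr_Phi_pt {m : ℕ} (lam t0 t : ℝ) (y : Fin m → ℝ) :
    wr_Phi lam t0 (pt y t) = pt (fun c => lam * y c) (lam * (t - t0)) := by
  unfold wr_Phi pt
  ext i
  refine Fin.lastCases ?_ (fun c => ?_) i
  · simp
  · simp

theorem wr_dist {m : ℕ} (lam t0 : ℝ) (hlam : 0 ≤ lam) (p q : EuclideanSpace ℝ (Fin (m + 1))) :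
    dist (wr_Phi lam t0 p) (wr_Phi lam t0 q) = lam * dist p q := by
  unfold wr_Phi
  rw [dist_smul₀, dist_sub_right, Real.norm_of_nonneg hlam]

theorem wr_mem {m : ℕ} (a : (Fin m → ℝ) → Fin m → ℝ) (E : Set (EuclideanSpace ℝ (Fin (m + 1)))) (lam t0 t1 : ℝ)
    (hlam : 0 < lam) (h1 : 1 ≤ lam * (t1 - t0))
    (hE : ∀ x ∈ cube m, ∀ t : ℝ, t0 ≤ t → t ≤ t1 → pt (fun c => a x c + t * x c) t ∈ E) :
    ∀ x ∈ cube m, ∀ t : ℝ, 0 ≤ t → t ≤ 1 → pt (fun c => wr_a a lam t0 x c + t * x c) t ∈ wr_Phi lam t0 '' E := by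
  intro x hx t ht0 ht1
  refine ⟨pt (fun c => a x c + (t0 + t / lam) * x c) (t0 + t / lam), hE x hx _ ?_ ?_, ?_⟩
  · have : 0 ≤ t / lam := by positivity
    linarith
  · have : t / lam ≤ t1 - t0 := by
      rw [div_le_iff₀ hlam]; nlinarith
    linarith
  · rw [wr_Phi_pt]
    unfold wr_a
    have e1 : lam * (t0 + t / lam - t0) = t := by field_simp; ring
    rw [e1]
    congr 1
    funext c
    field_simp
    ring

theorem wr_lam (b : ℕ) (hb : 2 ≤ b) (s : ℝ) (hs : 0 < s) : ∃ lam : ℝ, 1 ≤ lam ∧ 1 ≤ lam * s := by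
  refine ⟨max 1 (1 / s), le_max_left _ _, ?_⟩
  calc 1 = 1 / s * s := by field_simp
    _ ≤ max 1 (1 / s) * s := mul_le_mul_of_nonneg_right (le_max_right _ _) hs.le

theorem wr_H (h : ST_HFINC) : ST_HTHM := by
  intro m b L N R t0 t1 hm hb hL hN hR ht a E hS hC hF hE
  obtain ⟨lam, hlam1, hlam⟩ := wr_lam b hb (t1 - t0) (by linarith)
  have hlam0 : 0 < lam := by linarith
  have key := h m b L N (lam * R + lam * |t0|) hm hb hL hN (by positivity) (wr_a a lam t0) (wr_Phi lam t0 '' E)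
    (wr_sticky a lam t0 R hlam0.le b hb hS) (wr_cplx a lam t0 b L N hb hC) (wr_fininc a lam t0 b hb hF)
    (wr_mem a E lam t0 t1 hlam0 hlam hE)
  refine le_trans key ?_
  have hlip : LipschitzWith (Real.toNNReal lam) (wr_Phi (m := m) lam t0) :=
    LipschitzWith.of_dist_le_mul fun p q => by
      rw [wr_dist lam t0 hlam0.le, Real.coe_toNNReal _ hlam0.le]
  exact hlip.dimH_image_le E

theorem wr_vol {m : ℕ} (lam t0 : ℝ) (hlam : 0 < lam) (E : Set (EuclideanSpace ℝ (Fin (m + 1)))) (δ : ℝ) :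
    ENNReal.ofReal ((lam ^ (m + 1))⁻¹) * volume (Metric.thickening (lam * δ) (wr_Phi lam t0 '' E)) ≤
      volume (Metric.thickening δ E) := by
  have hsub : wr_Phi lam t0 ⁻¹' (Metric.thickening (lam * δ) (wr_Phi lam t0 '' E)) ⊆ Metric.thickening δ E := by
    intro p hp
    rw [Set.mem_preimage, Metric.mem_thickening_iff] at hp
    obtain ⟨z, ⟨q, hq, rfl⟩, hd⟩ := hp
    rw [wr_dist lam t0 hlam.le] at hd
    rw [Metric.mem_thickening_iff]
    exact ⟨q, hq, lt_of_mul_lt_mul_left hd hlam.le⟩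
  refine le_trans (le_of_eq ?_) (measure_mono hsub)
  have e1 : wr_Phi lam t0 ⁻¹' (Metric.thickening (lam * δ) (wr_Phi lam t0 '' E)) =
      (fun p : EuclideanSpace ℝ (Fin (m + 1)) => p + (-(pt 0 t0))) ⁻¹'
        ((fun p => lam • p) ⁻¹' (Metric.thickening (lam * δ) (wr_Phi lam t0 '' E))) := by
    ext p
    simp only [Set.mem_preimage, wr_Phi, sub_eq_add_neg]
  rw [e1, measure_preimage_add_right, Measure.addHaar_preimage_smul _ hlam.ne']
  rw [finrank_euclideanSpace, Fintype.card_fin, abs_of_pos (by positivity)]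

theorem wr_M (h : ST_MFINC) : ST_MTHM := by
  intro m b L N R t0 t1 ε hm hb hL hN hR ht hε
  obtain ⟨lam, hlam1, hlam⟩ := wr_lam b hb (t1 - t0) (by linarith)
  have hlam0 : 0 < lam := by linarith
  obtain ⟨c, hc, H⟩ := h m b L N (lam * R + lam * |t0|) ε hm hb hL hN (by positivity) hε
  obtain ⟨s, hs⟩ : ∃ s : ℝ, s = Real.log N / (L * Real.log b) + ε := ⟨_, rfl⟩
  have hs0 : 0 < s := by
    rw [hs]
    have : 0 ≤ Real.log N / (L * Real.log b) := by
      apply div_nonneg (Real.log_nonneg (by exact_mod_cast hN))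
      apply mul_nonneg (by positivity) (Real.log_nonneg (by exact_mod_cast (by omega : 1 ≤ b)))
    linarith
  have hlp : 0 < (lam ^ (m + 1))⁻¹ := by positivity
  have hhalf : (0 : ℝ) < (1 / 2) ^ s := by positivity
  refine ⟨(lam ^ (m + 1))⁻¹ * c * (1 / 2) ^ s, by positivity, ?_⟩
  intro a E hS hC hE δ hδ0 hδ1
  rw [← hs]
  have key := H (wr_a a lam t0) (wr_Phi lam t0 '' E) (wr_sticky a lam t0 R hlam0.le b hb hS)
    (wr_cplx a lam t0 b L N hb hC) (wr_mem a E lam t0 t1 hlam0 hlam hE)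
  rw [← hs] at key
  have gen : ∀ δ' : ℝ, 0 < δ' → lam * δ' < 1 →
      ENNReal.ofReal ((lam ^ (m + 1))⁻¹ * (c * (lam * δ') ^ s)) ≤ volume (Metric.thickening δ' E) := by
    intro δ' h0 h1
    refine le_trans ?_ (wr_vol lam t0 hlam0 E δ')
    rw [ENNReal.ofReal_mul hlp.le]
    exact mul_le_mul_right (key (lam * δ') (by positivity) h1) _
  by_cases hcase : lam * δ < 1
  · refine le_trans (ENNReal.ofReal_le_ofReal ?_) (gen δ hδ0 hcase)
    have h1 : δ ^ s ≤ (lam * δ) ^ s := Real.rpow_le_rpow hδ0.le (by nlinarith) hs0.le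
    have h2 : (1 / 2 : ℝ) ^ s ≤ 1 := Real.rpow_le_one (by norm_num) (by norm_num) hs0.le
    have h3 : (1 / 2 : ℝ) ^ s * δ ^ s ≤ (lam * δ) ^ s := by
      have : 0 ≤ δ ^ s := by positivity
      nlinarith
    calc (lam ^ (m + 1))⁻¹ * c * (1 / 2) ^ s * δ ^ s = (lam ^ (m + 1))⁻¹ * c * ((1 / 2) ^ s * δ ^ s) := by ring
      _ ≤ (lam ^ (m + 1))⁻¹ * c * (lam * δ) ^ s := mul_le_mul_of_nonneg_left h3 (by positivity)
      _ = (lam ^ (m + 1))⁻¹ * (c * (lam * δ) ^ s) := by ring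
  · push Not at hcase
    have hd : 1 / (2 * lam) ≤ δ := by
      rw [div_le_iff₀ (by positivity)]; linarith
    have hd1 : lam * (1 / (2 * lam)) = 1 / 2 := by field_simp
    refine le_trans (ENNReal.ofReal_le_ofReal ?_) (le_trans (gen (1 / (2 * lam)) (by positivity) (by rw [hd1]; norm_num))
      (measure_mono (Metric.thickening_mono hd E)))
    rw [hd1]
    have h1 : δ ^ s ≤ 1 := Real.rpow_le_one hδ0.le hδ1.le hs0.le
    calc (lam ^ (m + 1))⁻¹ * c * (1 / 2) ^ s * δ ^ s ≤ (lam ^ (m + 1))⁻¹ * c * (1 / 2) ^ s * 1 :=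
          mul_le_mul_of_nonneg_left h1 (by positivity)
      _ = (lam ^ (m + 1))⁻¹ * (c * (1 / 2) ^ s) := by ring

end Pool.Agent.Helper70.DK
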