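import Pool.Agent.Helper70.DK.Defs

namespace Pool.Agent.Helper70.DK

open Finset

theorem step_cells (B k q lam : ℕ) (hB : 2 ≤ B) (c : Fin k → ℤ) :
    ∃ A : Finset (Fin k → ℤ), A.card ≤ B ^ (k * lam) ∧ ∀ z : Fin k → ℤ, cl B (q + lam) z = c → cl B q z ∈ A := by
  have hB0 : (0 : ℤ) < (B : ℤ) := by exact_mod_cast (by omega : 0 < B)
  refine ⟨Fintype.piFinset (fun i => Finset.Ico (c i * (B : ℤ) ^ lam) ((c i + 1) * (B : ℤ) ^ lam)), ?_, ?_⟩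
  · rw [Fintype.card_piFinset]
    have : ∀ i : Fin k, (Finset.Ico (c i * (B : ℤ) ^ lam) ((c i + 1) * (B : ℤ) ^ lam)).card = B ^ lam := by
      intro i
      rw [Int.card_Ico]
      have : (c i + 1) * (B : ℤ) ^ lam - c i * (B : ℤ) ^ lam = ((B ^ lam : ℕ) : ℤ) := by push_cast; ring
      rw [this, Int.toNat_natCast]
    rw [Finset.prod_congr rfl (fun i _ => this i), Finset.prod_const, Finset.card_univ, Fintype.card_fin, ← pow_mul,
      mul_comm lam k]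
  · intro z hz
    rw [Fintype.mem_piFinset]
    intro i
    have h1 : z i / (B : ℤ) ^ (q + lam) = c i := congrFun hz i
    rw [pow_add, ← Int.ediv_ediv_of_nonneg (by positivity)] at h1
    have h2 : (0 : ℤ) < (B : ℤ) ^ lam := by positivity
    rw [Finset.mem_Ico]
    show c i * (B : ℤ) ^ lam ≤ z i / (B : ℤ) ^ q ∧ z i / (B : ℤ) ^ q < (c i + 1) * (B : ℤ) ^ lam
    constructor
    · rw [← h1]; exact Int.ediv_mul_le _ h2.ne'
    · rw [← h1]; exact Int.lt_ediv_add_one_mul_self _ h2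

theorem step_pow (x C : ℝ) (hx : 0 < x) : ∃ v : ℕ, C < x * 2 ^ v := by
  obtain ⟨v, hv⟩ := pow_unbounded_of_one_lt (C / x) (one_lt_two : (1 : ℝ) < 2)
  refine ⟨v, ?_⟩
  rw [div_lt_iff₀ hx] at hv
  linarith

theorem step_mem_fib {Ω β : Type} (S : Finset Ω) (g : Ω → β) (c : β) (x : Ω) (hx : x ∈ fib S g c) : g x = c := by
  classical
  unfold fib at hx
  exact (Finset.mem_filter.mp hx).2

theorem st_STEP (hP : ST_PAIR) (hU : ST_UPP) (hL : ST_LOW) (hS : ST_SELA) (h8 : ST_E8) (h9 : ST_E9) : ST_STEP := by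
  classical
  intro m B μ k R ε0 ε1 hm hB hR hε0 hμ hk hε1
  have hlog : 0 < Real.log B := Real.log_pos (by exact_mod_cast (by omega : 1 < B))
  have hB1 : (1 : ℝ) ≤ (B : ℝ) := by exact_mod_cast (by omega : 1 ≤ B)
  obtain ⟨θ, ε, κ, hθ, hε, hεε, hκ, HS⟩ := hS m B μ k R ε0 ε1 hm hB hR hε0 hμ hk hε1
  obtain ⟨v, hv⟩ := step_pow (θ * Real.log B) (2 * ((((k + 1 : ℕ) : ℝ) + 1) * Real.log 2 + 1)) (by positivity)
  have hv' : 2 * ((((k + 1 : ℕ) : ℝ) + 1) * Real.log 2 + 1) < θ * 2 ^ v * Real.log B := by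
    refine lt_of_lt_of_eq hv ?_; ring
  obtain ⟨CL, hCL, HL⟩ := hL m B (2 ^ v) R hm hB hR
  obtain ⟨CU, hCU, HU⟩ := hU B (k + 1) hB
  obtain ⟨a0s, hva, HS'⟩ := HS v
  obtain ⟨a1, ha1⟩ := step_pow (3 / 4 * ε1 * Real.log B) (CL + CU + 1) (by positivity)
  refine ⟨ε, κ, hε, hκ, max a0s a1, fun a ha => ?_⟩
  have haa1 : a1 ≤ a := le_trans (le_max_right _ _) ha
  have haas : a0s ≤ a := le_trans (le_max_left _ _) ha
  obtain ⟨K, hK⟩ : ∃ K : ℕ, K = B ^ ((k + 1) * 2 ^ a) := ⟨_, rfl⟩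
  have hK1 : 1 ≤ K := by rw [hK]; exact Nat.one_le_pow _ _ (by omega)
  have hlogK : 0 ≤ Real.log K := Real.log_nonneg (by exact_mod_cast hK1)
  obtain ⟨y, hy⟩ : ∃ y : ℝ, y = Real.log K + 1 := ⟨_, rfl⟩
  have hy1 : 1 ≤ y := by rw [hy]; linarith
  obtain ⟨x0, hx0⟩ : ∃ x0 : ℝ, x0 = (1 / (2 * y)) ^ 2 := ⟨_, rfl⟩
  have hx0p : 0 < x0 := by rw [hx0]; positivity
  have hinv : 1 / (2 * y) ≤ 1 / 2 := by
    apply one_div_le_one_div_of_le <;> linarith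
  have hsqr : Real.sqrt x0 = 1 / (2 * y) := by rw [hx0]; exact Real.sqrt_sq (by positivity)
  have hx01 : x0 ≤ 1 := by
    rw [hx0]
    have : 0 ≤ 1 / (2 * y) := by positivity
    nlinarith
  have hxy : x0 * y ≤ 1 / 4 := by
    have : x0 * y = 1 / (4 * y) := by rw [hx0]; field_simp; ring
    rw [this]
    apply one_div_le_one_div_of_le <;> linarith
  obtain ⟨η3, hη3⟩ : ∃ η3 : ℝ, η3 = x0 / (B : ℝ) ^ (4 * 2 ^ a) := ⟨_, rfl⟩
  have hBpos : (0 : ℝ) < (B : ℝ) ^ (4 * 2 ^ a) := by positivity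
  have hη3p : 0 < η3 := by rw [hη3]; positivity
  obtain ⟨η', hη', HP⟩ := hP B (k + 1) (2 ^ v) (θ * 2 ^ v * Real.log B) η3 hB hη3p hv'
  obtain ⟨η, hη, c1, hc1, HS''⟩ := HS' a haas η' hη'
  refine ⟨η, hη, c1, hc1, fun c hc ι _ _ σ t q0 hOk ht0 ht1 h1 h2 h3 h4 h5 => ?_⟩
  by_contra hcon
  push Not at hcon
  obtain ⟨π, s, q, hπ, hq, hsq, hqs, hT, hW, hV, hG⟩ := HS'' c hc ι σ t q0 hOk ht0 ht1 h1 h2 h3 h4 h5 hcon
  obtain ⟨T, hTd⟩ : ∃ T : (Fin (2 ^ c) → ι) → Fin (k + 1) → ℤ, T = fun u => fl ((B : ℝ) ^ ((2 ^ μ - 1) * 2 ^ c) •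
    π.mulVec (σ.P B t (q0 * 2 ^ (c + μ)) (2 ^ c) u)) := ⟨_, rfl⟩
  obtain ⟨V, hVd⟩ : ∃ V : (Fin ((2 ^ μ - 1) * 2 ^ c) → ι) → Fin (k + 1) → ℤ, V = fun v' => fl (π.mulVec
    (σ.P B t (q0 * 2 ^ (c + μ) + 2 ^ c) ((2 ^ μ - 1) * 2 ^ c) v')) := ⟨_, rfl⟩
  have hT' : θ * 2 ^ v * Real.log B ≤ ent univ (fun u => cl B s (T u)) - ent univ (fun u => cl B (s + 2 ^ v) (T u)) := by
    rw [hTd]; exact hT
  have hW' : cent (univ ×ˢ univ) (fun x => T x.1 + V x.2) (fun x => cl B (s + 2 ^ v) (T x.1)) -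
      cent (univ ×ˢ univ) (fun x => T x.1 + V x.2) (fun x => cl B s (T x.1)) ≤ η' := by
    rw [hTd, hVd]; exact hW
  have hV' : ent univ (fun v' => cl B q (V v')) - ent univ (fun v' => cl B (q + 2 ^ a) (V v')) ≤
      (k + 1 - ε0 - 7 / 8 * ε1) * 2 ^ a * Real.log B := by
    rw [hVd]; exact hV
  clear hT hW hV
  obtain ⟨e, e', he, he', hpar, hdist, hl1⟩ := HP _ _ univ univ T V s univ_nonempty univ_nonempty hT' hW'
  obtain ⟨S, hS⟩ : ∃ S : Finset (Fin (2 ^ c) → ι), S = fib univ (fun u => cl B s (T u)) e := ⟨_, rfl⟩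
  obtain ⟨S', hS'⟩ : ∃ S' : Finset (Fin (2 ^ c) → ι), S' = fib univ (fun u => cl B s (T u)) e' := ⟨_, rfl⟩
  have hfS : ∀ x ∈ S, cl B s (T x) = e := fun x hx => by
    rw [hS] at hx; exact (step_mem_fib _ (fun u => cl B s (T u)) _ _ hx)
  have hfS' : ∀ x ∈ S', cl B s (T x) = e' := fun x hx => by
    rw [hS'] at hx; exact (step_mem_fib _ (fun u => cl B s (T u)) _ _ hx)
  rw [← hS] at he hl1
  rw [← hS'] at he' hl1
  obtain ⟨Q, hQ⟩ : ∃ Q : ℕ, Q = B ^ (q + 2 ^ a - s) := ⟨_, rfl⟩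
  have hexp : q + 2 ^ a - s ≤ 4 * 2 ^ a := by omega
  have hQ1 : 1 ≤ Q := by rw [hQ]; exact Nat.one_le_pow _ _ (by omega)
  have key9 := h9 _ _ (k + 1) S S' univ T V η3 Q he he' univ_nonempty hQ1 hl1
  have hQη : (Q : ℝ) * η3 ≤ x0 := by
    rw [hη3]
    have : (Q : ℝ) ≤ (B : ℝ) ^ (4 * 2 ^ a) := by
      rw [hQ]
      push_cast
      exact pow_le_pow_right₀ hB1 hexp
    calc (Q : ℝ) * (x0 / (B : ℝ) ^ (4 * 2 ^ a))
        ≤ (B : ℝ) ^ (4 * 2 ^ a) * (x0 / (B : ℝ) ^ (4 * 2 ^ a)) := by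
          apply mul_le_mul_of_nonneg_right this (by positivity)
      _ = x0 := by field_simp
  have hne : ((Finset.range Q) ×ˢ (Fintype.piFinset (fun _ : Fin Q => S)) ×ˢ
      (Fintype.piFinset (fun _ : Fin Q => S')) ×ˢ (univ : Finset (Fin ((2 ^ μ - 1) * 2 ^ c) → ι))).Nonempty := by
    refine Finset.Nonempty.product ?_ (Finset.Nonempty.product ?_ (Finset.Nonempty.product ?_ univ_nonempty))
    · exact ⟨0, Finset.mem_range.mpr (by omega)⟩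
    · exact Fintype.piFinset_nonempty.mpr fun _ => he
    · exact Fintype.piFinset_nonempty.mpr fun _ => he'
  have hne' : ((Fintype.piFinset (fun _ : Fin Q => S')) ×ˢ
      (univ : Finset (Fin ((2 ^ μ - 1) * 2 ^ c) → ι))).Nonempty :=
    Finset.Nonempty.product (Fintype.piFinset_nonempty.mpr fun _ => he') univ_nonempty
  have key8 := h8 _ _ _ _ _ _ _ _ _ (cl B q) (cl B (q + 2 ^ a)) K x0
    hne hne' hK1 (fun z => by rw [hK]; exact step_cells B (k + 1) q (2 ^ a) hB z) (le_trans key9 hQη) hx01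
  have hcast : (((2 ^ a : ℕ) : ℝ)) = (2 : ℝ) ^ a := by push_cast; rfl
  have keyL : σ.GG B t k (q0 * 2 ^ (c + μ) + 2 ^ c + ((2 ^ μ - 1) * 2 ^ c - (q + 2 ^ a))) (2 ^ a) +
      (2 : ℝ) ^ a * Real.log B - CL ≤
      cent ((Finset.range Q) ×ˢ (Fintype.piFinset (fun _ : Fin Q => S)) ×ˢ
          (Fintype.piFinset (fun _ : Fin Q => S')) ×ˢ (univ : Finset (Fin ((2 ^ μ - 1) * 2 ^ c) → ι)))
        (fun x => cl B q ((∑ j : Fin Q, if (j : ℕ) < x.1 then T (x.2.1 j) else T (x.2.2.1 j)) + V x.2.2.2))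
        (fun x => cl B (q + 2 ^ a) ((∑ j : Fin Q, if (j : ℕ) < x.1 then T (x.2.1 j) else T (x.2.2.1 j)) +
          V x.2.2.2)) := by
    rw [← hcast, hVd]
    exact HL ι σ t k π (q0 * 2 ^ (c + μ) + 2 ^ c) ((2 ^ μ - 1) * 2 ^ c) q (2 ^ a) s Q _ S S' T e e' ht0 ht1 hOk hπ
      hq (by omega) (by omega) hQ he he' hfS hfS' hpar hdist
  have keyU := HU _ _ S' univ T V e' s (q + 2 ^ a) q Q he' univ_nonempty hfS' hQ (by omega) (by omega) (by omega)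
  have h2a : (2 : ℝ) ^ a1 ≤ (2 : ℝ) ^ a := pow_le_pow_right₀ one_le_two haa1
  have hbig : CL + CU + 1 < 3 / 4 * ε1 * Real.log B * 2 ^ a :=
    lt_of_lt_of_le ha1 (mul_le_mul_of_nonneg_left h2a (by positivity))
  have hsmall : x0 * (Real.log K + 1) + Real.sqrt x0 ≤ 1 := by
    rw [hsqr, ← hy]; linarith
  have hεL : ε * 2 ^ a * Real.log B ≤ ε1 / 8 * 2 ^ a * Real.log B := by
    apply mul_le_mul_of_nonneg_right (mul_le_mul_of_nonneg_right hεε (by positivity)) hlog.le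
  have h9 := le_trans keyL (le_trans key8 (add_le_add (add_le_add keyU le_rfl) le_rfl))
  clear keyL key8 keyU key9 hne hne'
  linarith [h9, hbig, hsmall, hG, hV', hεL]

end Pool.Agent.Helper70.DK
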