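import Pool.Agent.Helper11.DK.E1
import Pool.Agent.Helper11.DK.PB
import Pool.Agent.Helper23.DK.E2
import Pool.Agent.Helper23.DK.E3
import Pool.Agent.Helper47.DK.E5
import Pool.Agent.Helper37.DK.E6
import Pool.Agent.Helper48.DK.E7
import Pool.Agent.Helper94.DK.E8
import Pool.Agent.Helper30.DK.E9
import Pool.Agent.Helper44.DK.E10
import Pool.Agent.Helper61.DK.FRM
import Pool.Agent.Helper53.DK.SUP
import Pool.Agent.Helper25.DK.INC
import Pool.Agent.Helper92.DK.PAIR
import Pool.Agent.Helper57.DK.UPP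
import Pool.Agent.Helper83.DK.LOW
import Pool.Agent.Helper21.DK.PIG
import Pool.Agent.Helper24.DK.SELA
import Pool.Agent.Helper70.DK.STEP
import Pool.Agent.Helper45.DK.TREE
import Pool.Agent.Helper35.DK.CLAIM
import Pool.Agent.Helper67.DK.SUBL
import Pool.Agent.Helper52.DK.DMEAS
import Pool.Agent.Helper67.DK.DPTS
import Pool.Agent.Helper64.DK.DSUB
import Pool.Agent.Helper58.DK.DGOOD
import Pool.Agent.Helper43.DK.COREM
import Pool.Agent.Helper99.DK.COREH

namespace Pool.Agent.Helper70.DK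

theorem core_SUP : ST_SUP := st_SUP st_E1 st_E2 st_E5 st_FRM st_PB

theorem core_LOW : ST_LOW := st_LOW st_E1 st_E2 st_E5 st_E6 st_E10 st_FRM st_PB core_SUP

theorem core_SELA : ST_SELA :=
  st_SELA st_E1 st_E2 st_E3 st_E5 st_FRM st_PB core_SUP (st_INC st_E1 st_E2 st_E5 st_FRM st_PB) st_PIG

theorem core_STEP : ST_STEP :=
  st_STEP (st_PAIR st_E1 st_E2 st_E3 (st_E7)) (st_UPP st_E1 st_E5 st_E6 st_E10) core_LOW core_SELA st_E8 st_E9

theorem core_CLAIM : ST_CLAIM := st_CLAIM core_STEP st_TREE core_SUP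

theorem core_DGOOD : ST_DGOOD := st_DGOOD (st_DSUB st_FRM st_PB) st_DPTS st_PB st_E2

theorem core_COREM : ST_COREM := st_COREM core_CLAIM core_DGOOD (st_DMEAS st_SUBL) core_SUP st_FRM st_E1

theorem core_COREH : ST_COREH := st_COREH core_CLAIM core_DGOOD (st_DMEAS st_SUBL) core_SUP st_FRM

end Pool.Agent.Helper70.DK
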