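import Pool.Agent.Helper70.DK.Defs3

namespace Pool.Agent.Helper70.DK

open Finset

theorem cpow_grid_finite (m N : ℕ) : (grid m N).Finite := by
  have h : grid m N ⊆ ((Fintype.piFinset (fun _ : Fin m => Finset.Ico (0 : ℤ) (N : ℤ)) : Finset (Fin m → ℤ)) :
      Set (Fin m → ℤ)) := by
    intro i hi
    rw [Finset.mem_coe, Fintype.mem_piFinset]
    intro c
    rw [Finset.mem_Ico]
    exact hi c
  exact (Finset.finite_toSet _).subset h

open Classical in
/-- the child pattern as a function of the pattern -/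
noncomputable def cpow_G {m : ℕ} (b L : ℕ) (p : (Fin m → ℝ) → Fin m → ℝ) (w : Fin m → ℤ) :
    (Fin m → ℝ) → Fin m → ℝ :=
  fun y c => if y ∈ cube m then
    (b : ℝ) ^ L * (p (fun c' => (y c' + w c') / (b : ℝ) ^ L) c - p (fun c' => (w c' : ℝ) / (b : ℝ) ^ L) c) else 0

theorem cpow_child {m : ℕ} (a : (Fin m → ℝ) → Fin m → ℝ) (b j L : ℕ) (hb : 2 ≤ b) (i w : Fin m → ℤ)
    (hw : w ∈ grid m (b ^ L)) :
    pat a b (j + L) (fun c => (b : ℤ) ^ L * i c + w c) = cpow_G b L (pat a b j i) w := by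
  have hb0 : (0 : ℝ) < b := by exact_mod_cast (by omega : 0 < b)
  have hL : (0 : ℝ) < (b : ℝ) ^ L := by positivity
  have hj : (0 : ℝ) < (b : ℝ) ^ j := by positivity
  have hw0 : ∀ c, (0 : ℝ) ≤ (w c : ℝ) ∧ (w c : ℝ) + 1 ≤ (b : ℝ) ^ L := by
    intro c
    have h := hw c
    constructor
    · exact_mod_cast h.1
    · have h2 : w c + 1 ≤ ((b ^ L : ℕ) : ℤ) := by omega
      have h3 : ((w c + 1 : ℤ) : ℝ) ≤ (((b ^ L : ℕ) : ℤ) : ℝ) := by exact_mod_cast h2
      push_cast at h3
      linarith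
  have key : ∀ z : Fin m → ℝ, (∀ c, 0 ≤ z c ∧ z c < 1) → ∀ c,
      pat a b j i (fun c' => (z c' + w c') / (b : ℝ) ^ L) c =
      (b : ℝ) ^ j * (a (fun c' => (z c' + ((b : ℝ) ^ L * i c' + w c')) / (b : ℝ) ^ (j + L)) c -
        a (fun c' => (i c' : ℝ) / (b : ℝ) ^ j) c) := by
    intro z hz c
    unfold pat
    rw [if_pos]
    · congr 3
      funext c'
      rw [pow_add]
      field_simp
      ring
    · intro c'
      have h1 := hz c'
      have h2 := hw0 c'
      constructor
      · apply div_nonneg _ hL.le; linarith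
      · rw [div_lt_one hL]; linarith
  funext y c
  unfold cpow_G
  by_cases hy : y ∈ cube m
  · rw [if_pos hy, key y hy c]
    have h0 := key 0 (fun _ => ⟨le_rfl, zero_lt_one⟩) c
    simp only [Pi.zero_apply, zero_add] at h0
    rw [h0]
    unfold pat
    rw [if_pos hy]
    push_cast
    rw [pow_add]
    ring
  · rw [if_neg hy]
    unfold pat
    rw [if_neg hy]

theorem cpow_mem_grid {m b p L : ℕ} (hb : 2 ≤ b) (w : Fin m → ℤ) (hw : w ∈ grid m (b ^ (p + L))) :
    ∃ w1 ∈ grid m (b ^ p), ∃ w2 ∈ grid m (b ^ L), ∀ c, w c = (b : ℤ) ^ L * w1 c + w2 c := by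
  have hb0 : (0 : ℤ) < (b : ℤ) ^ L := by
    have : (0 : ℤ) < (b : ℤ) := by exact_mod_cast (by omega : 0 < b)
    positivity
  refine ⟨fun c => w c / (b : ℤ) ^ L, ?_, fun c => w c % (b : ℤ) ^ L, ?_, ?_⟩
  · intro c
    have h := hw c
    constructor
    · exact Int.ediv_nonneg h.1 hb0.le
    · apply Int.ediv_lt_of_lt_mul hb0
      have := h.2
      push_cast at this ⊢
      rw [← pow_add]
      exact this
  · intro c
    constructor
    · exact Int.emod_nonneg _ hb0.ne'
    · push_cast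
      exact Int.emod_lt_of_pos _ hb0
  · intro c
    exact (Int.mul_ediv_add_emod _ _).symm

theorem cpow_shift_mem {m b j p : ℕ} (hb : 2 ≤ b) (i w : Fin m → ℤ) (hi : i ∈ grid m (b ^ j)) (hw : w ∈ grid m (b ^ p)) :
    (fun c => (b : ℤ) ^ p * i c + w c) ∈ grid m (b ^ (j + p)) := by
  have hb0 : (0 : ℤ) < (b : ℤ) ^ p := by
    have : (0 : ℤ) < (b : ℤ) := by exact_mod_cast (by omega : 0 < b)
    positivity
  intro c
  have h1 := hi c
  have h2 := hw c
  push_cast at h1 h2 ⊢
  constructor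
  · have := mul_nonneg hb0.le h1.1
    linarith [h2.1]
  · rw [pow_add]
    have h3 : (b : ℤ) ^ p * (i c + 1) ≤ (b : ℤ) ^ p * (b : ℤ) ^ j := mul_le_mul_of_nonneg_left (by linarith [h1.2]) hb0.le
    have h4 := h2.2
    calc (b : ℤ) ^ p * i c + w c < (b : ℤ) ^ p * i c + (b : ℤ) ^ p := by linarith
      _ = (b : ℤ) ^ p * (i c + 1) := by ring
      _ ≤ (b : ℤ) ^ p * (b : ℤ) ^ j := h3
      _ = (b : ℤ) ^ j * (b : ℤ) ^ p := mul_comm _ _

theorem st_CPOW : ST_CPOW := by
  classical
  intro m b L N p a hm hb hC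
  induction p with
  | zero =>
    intro j i hi
    rw [pow_zero, zero_mul]
    refine le_trans (Set.ncard_le_ncard (t := {pat a b (j + 0) (fun c => (b : ℤ) ^ 0 * i c + 0)}) ?_ (Set.finite_singleton _)) ?_
    · rintro _ ⟨w, hw, rfl⟩
      rw [Set.mem_singleton_iff]
      have : w = 0 := by
        funext c
        have := hw c
        simp at this
        show w c = 0
        omega
      subst this
      rfl
    · rw [Set.ncard_singleton]
  | succ p ih =>
    intro j i hi
    have hfin : ((fun w : Fin m → ℤ => pat a b (j + p * L) (fun c => (b : ℤ) ^ (p * L) * i c + w c)) ''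
        grid m (b ^ (p * L))).Finite := (cpow_grid_finite m _).image _
    have hS := ih j i hi
    rw [Set.ncard_eq_toFinset_card _ hfin] at hS
    have hchoose : ∀ P ∈ hfin.toFinset, ∃ w ∈ grid m (b ^ (p * L)),
        pat a b (j + p * L) (fun c => (b : ℤ) ^ (p * L) * i c + w c) = P := by
      intro P hP
      rw [Set.Finite.mem_toFinset] at hP
      exact hP
    choose! rep hrep hrepeq using hchoose
    have hT : ∀ P : (Fin m → ℝ) → Fin m → ℝ, ((fun w : Fin m → ℤ => cpow_G b L P w) '' grid m (b ^ L)).Finite :=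
      fun P => (cpow_grid_finite m _).image _
    have hTN : ∀ P ∈ hfin.toFinset, (hT P).toFinset.card ≤ N := by
      intro P hP
      have h1 := hC (j + p * L) (fun c => (b : ℤ) ^ (p * L) * i c + rep P c) (cpow_shift_mem hb i _ hi (hrep P hP))
      rw [← Set.ncard_eq_toFinset_card _ (hT P)]
      refine le_trans (le_of_eq ?_) h1
      congr 1
      apply Set.image_congr
      intro w hw
      rw [cpow_child a b (j + p * L) L hb _ w hw, hrepeq P hP]
    have hsub : ((fun w : Fin m → ℤ => pat a b (j + (p + 1) * L) (fun c => (b : ℤ) ^ ((p + 1) * L) * i c + w c)) ''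
        grid m (b ^ ((p + 1) * L))) ⊆ ((hfin.toFinset.biUnion (fun P => (hT P).toFinset) :
          Finset ((Fin m → ℝ) → Fin m → ℝ)) : Set ((Fin m → ℝ) → Fin m → ℝ)) := by
      rintro _ ⟨w, hw, rfl⟩
      have hpl : (p + 1) * L = p * L + L := by ring
      rw [hpl] at hw
      obtain ⟨w1, hw1, w2, hw2, hww⟩ := cpow_mem_grid hb w hw
      rw [Finset.mem_coe, Finset.mem_biUnion]
      refine ⟨pat a b (j + p * L) (fun c => (b : ℤ) ^ (p * L) * i c + w1 c), ?_, ?_⟩
      · rw [Set.Finite.mem_toFinset]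
        exact ⟨w1, hw1, rfl⟩
      · rw [Set.Finite.mem_toFinset]
        refine ⟨w2, hw2, ?_⟩
        show cpow_G b L (pat a b (j + p * L) (fun c => (b : ℤ) ^ (p * L) * i c + w1 c)) w2 = _
        rw [← cpow_child a b (j + p * L) L hb _ w2 hw2]
        have e1 : j + (p + 1) * L = j + p * L + L := by ring
        show pat a b (j + p * L + L) _ = pat a b (j + (p + 1) * L) (fun c => (b : ℤ) ^ ((p + 1) * L) * i c + w c)
        rw [e1]
        congr 1
        funext c
        rw [hww c, hpl, pow_add]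
        ring
    refine le_trans (Set.ncard_le_ncard hsub (Finset.finite_toSet _)) ?_
    rw [Set.ncard_coe_finset]
    refine le_trans (Finset.card_biUnion_le_card_mul _ _ N hTN) ?_
    rw [pow_succ]
    exact Nat.mul_le_mul_right _ hS

end Pool.Agent.Helper70.DK
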