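import Pool.Agent.Helper70.DK.Stick

/-! Pattern complexity of sticky position maps. -/

namespace Pool.Agent.Helper70.DK

/-- every `b`-adic cube contains at most `N` different magnifications of relative depth `L` -/
def Cplx {m : ℕ} (a : (Fin m → ℝ) → Fin m → ℝ) (b L N : ℕ) : Prop :=
  ∀ j, ∀ i ∈ grid m (b ^ j),
    ((fun w : Fin m → ℤ => pat a b (j + L) (fun c => (b : ℤ) ^ L * i c + w c)) '' grid m (b ^ L)).ncard ≤ N

end Pool.Agent.Helper70.DK
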