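import Mathlib

/-! Digit Kakeya sets: definitions and statements of the modules (blueprint: /team-store/dk_blueprint.md). -/

namespace Pool.Agent.Helper70.DK

open Finset

/-! ### finite entropy -/

open Classical in
/-- entropy (natural logarithm) of `f` under the uniform distribution on the finite set `S` -/
noncomputable def ent {Ω α : Type} (S : Finset Ω) (f : Ω → α) : ℝ :=
  (∑ ω ∈ S, (Real.log (S.card : ℝ) - Real.log ((S.filter (fun ω' => f ω' = f ω)).card : ℝ))) / (S.card : ℝ)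

open Classical in
/-- law of `f` under the uniform distribution on `S` -/
noncomputable def law {Ω α : Type} (S : Finset Ω) (f : Ω → α) (z : α) : ℝ :=
  ((S.filter (fun ω => f ω = z)).card : ℝ) / (S.card : ℝ)

open Classical in
/-- `L¹` distance of the laws of `f` on `S` and of `f'` on `S'` -/
noncomputable def l1 {Ω Ω' α : Type} (S : Finset Ω) (f : Ω → α) (S' : Finset Ω') (f' : Ω' → α) : ℝ :=
  ∑ z ∈ S.image f ∪ S'.image f', |law S f z - law S' f' z|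

/-- conditional entropy of `f` given `g` -/
noncomputable def cent {Ω α β : Type} (S : Finset Ω) (f : Ω → α) (g : Ω → β) : ℝ :=
  ent S (fun ω => (f ω, g ω)) - ent S g

open Classical in
/-- the fibre of `g` over `c` in `S` -/
noncomputable def fib {Ω β : Type} (S : Finset Ω) (g : Ω → β) (c : β) : Finset Ω := S.filter (fun ω => g ω = c)

/-! ### cells -/

/-- integer cell of a real vector -/
noncomputable def fl {k : ℕ} (v : Fin k → ℝ) : Fin k → ℤ := fun i => ⌊v i⌋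

/-- `B`-adic cell of level `s` (side `B ^ s`) of an integer vector -/
def cl {k : ℕ} (B s : ℕ) (z : Fin k → ℤ) : Fin k → ℤ := fun i => z i / (B : ℤ) ^ s

/-! ### digit systems -/

/-- digits `dg j s` (the `j`-th digit of the direction for the letter `s`) and positions `ph j s` -/
structure Sys (m : ℕ) (ι : Type) where
  dg : ℕ → ι → Fin m → ℤ
  ph : ℕ → ι → Fin m → ℝ

/-- digits in `{0, .., B - 1} ^ m`, different letters have different digits, positions bounded by `R` -/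
def Sys.Ok {m : ℕ} {ι : Type} (σ : Sys m ι) (B : ℕ) (R : ℝ) : Prop :=
  (∀ j s c, 0 ≤ σ.dg j s c ∧ σ.dg j s c < (B : ℤ)) ∧ (∀ j, Function.Injective (σ.dg j)) ∧
    ∀ j s c, |σ.ph j s c| ≤ R

/-- the point `∑_q B ^ (n - 1 - q) (ph (i + q) (u q) + t dg (i + q) (u q))` of the window `[i, i + n)` -/
noncomputable def Sys.P {m : ℕ} {ι : Type} (σ : Sys m ι) (B : ℕ) (t : ℝ) (i n : ℕ) (u : Fin n → ι) :
    Fin m → ℝ :=
  fun c => ∑ q : Fin n, (B : ℝ) ^ (n - 1 - (q : ℕ)) *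
    (σ.ph (i + q) (u q) c + t * (σ.dg (i + q) (u q) c : ℝ))

/-- the direction of a word of the window `[i, i + n)` -/
def Sys.D {m : ℕ} {ι : Type} (σ : Sys m ι) (B : ℕ) (i n : ℕ) (u : Fin n → ι) : Fin m → ℤ :=
  fun c => ∑ q : Fin n, (B : ℤ) ^ (n - 1 - (q : ℕ)) * σ.dg (i + q) (u q) c

/-- orthonormal frames (as matrices with orthonormal rows) -/
def Frame {k m : ℕ} (π : Matrix (Fin k) (Fin m) ℝ) : Prop := π * π.transpose = 1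

/-- entropy of the cells of `π P` on the window `[i, i + n)` -/
noncomputable def Sys.hh {m : ℕ} {ι : Type} [Fintype ι] (σ : Sys m ι) (B : ℕ) (t : ℝ) {k : ℕ}
    (π : Matrix (Fin k) (Fin m) ℝ) (i n : ℕ) : ℝ :=
  ent (univ : Finset (Fin n → ι)) (fun u => fl (π.mulVec (σ.P B t i n u)))

/-- infimum over all frames of rank `k` -/
noncomputable def Sys.GG {m : ℕ} {ι : Type} [Fintype ι] (σ : Sys m ι) (B : ℕ) (t : ℝ) (k : ℕ) (i n : ℕ) : ℝ :=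
  ⨅ π : {π : Matrix (Fin k) (Fin m) ℝ // Frame π}, σ.hh B t π.1 i n

/-- the constant of superadditivity -/
noncomputable def cc (m B : ℕ) (R : ℝ) : ℝ := m * Real.log (4 * m * (R + B) + 8)

/-- normalised entropy of the dyadic block `[q 2 ^ a, (q + 1) 2 ^ a)` -/
noncomputable def Sys.ee {m : ℕ} {ι : Type} [Fintype ι] (σ : Sys m ι) (B : ℕ) (R t : ℝ) (k a q : ℕ) : ℝ :=
  (σ.GG B t k (q * 2 ^ a) (2 ^ a) - cc m B R) / (2 ^ a * Real.log B)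

/-- the block `[i, i + n)` has, for every frame, almost full entropy at the scale `B ^ (- (M - 1) n)` -/
def Sys.Good {m : ℕ} {ι : Type} [Fintype ι] (σ : Sys m ι) (B : ℕ) (ε0 t : ℝ) (M i n : ℕ) : Prop :=
  ∀ k ≤ m, ∀ π : Matrix (Fin k) (Fin m) ℝ, Frame π →
    ((k : ℝ) - ε0) * n * Real.log B ≤
      ent (univ : Finset (Fin n → ι)) (fun u => fl ((B : ℝ) ^ ((M - 1) * n) • π.mulVec (σ.P B t i n u)))

/-- Diophantine property of the window `[i, i + n)` -/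
def Sys.Dio {m : ℕ} {ι : Type} (σ : Sys m ι) (B C : ℕ) (t : ℝ) (i n : ℕ) : Prop :=
  ∀ r, 1 ≤ r → r ≤ m → ∀ (u v : Fin r → Fin n → ι) (s : Fin r → Fin m),
    (Matrix.of fun x y : Fin r => σ.D B i n (u x) (s y) - σ.D B i n (v x) (s y)).det ≠ 0 →
    ((B : ℝ) ^ (C * n))⁻¹ ≤
      |(Matrix.of fun x y : Fin r => σ.P B t i n (u x) (s y) - σ.P B t i n (v x) (s y)).det|

/-! ### statements: entropy library -/

/-- (E1) data processing, submodularity, bounds -/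
def ST_E1 : Prop :=
  (∀ (Ω α β : Type) (S : Finset Ω) (f : Ω → α) (g : Ω → β),
    (∀ x ∈ S, ∀ y ∈ S, g x = g y → f x = f y) → ent S f ≤ ent S g) ∧
  (∀ (Ω α β γ : Type) (S : Finset Ω) (f : Ω → α) (g : Ω → β) (h : Ω → γ),
    ent S (fun ω => (f ω, g ω, h ω)) + ent S h ≤ ent S (fun ω => (f ω, h ω)) + ent S (fun ω => (g ω, h ω))) ∧
  (∀ (Ω α : Type) (S : Finset Ω) (f : Ω → α), 0 ≤ ent S f) ∧
  (∀ (Ω α β : Type) (S : Finset Ω) (f : Ω → α) (g : Ω → β),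
    ent S (fun ω => (f ω, g ω)) ≤ ent S f + ent S g)

/-- (E2) bounded number of values on the fibres; many small fibres -/
def ST_E2 : Prop :=
  (∀ (Ω α β : Type) (S : Finset Ω) (f : Ω → α) (g : Ω → β) (K : ℕ),
    (∀ c, ∃ F : Finset α, F.card ≤ K ∧ ∀ x ∈ S, g x = c → f x ∈ F) → cent S f g ≤ Real.log K) ∧
  (∀ (Ω α : Type) (S : Finset Ω) (f : Ω → α) (K : ℕ), S.Nonempty →
    (∀ x ∈ S, (fib S f (f x)).card ≤ K) → Real.log S.card - Real.log K ≤ ent S f) ∧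
  (∀ (Ω α : Type) (S : Finset Ω) (f : Ω → α) (F : Finset α), (∀ x ∈ S, f x ∈ F) → ent S f ≤ Real.log F.card)

/-- (E3) fibre decomposition -/
def ST_E3 : Prop :=
  ∀ (Ω α β : Type) (S : Finset Ω) (f : Ω → α) (g : Ω → β) (C : Finset β), (∀ x ∈ S, g x ∈ C) →
    cent S f g = ∑ c ∈ C, ((fib S g c).card : ℝ) / (S.card : ℝ) * ent (fib S g c) f

/-- (E5) products and bijections -/
def ST_E5 : Prop :=
  (∀ (Ω Ω' α : Type) (S : Finset Ω) (S' : Finset Ω') (f : Ω → α), S'.Nonempty →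
    ent (S ×ˢ S') (fun x => f x.1) = ent S f) ∧
  (∀ (Ω Ω' α : Type) (S : Finset Ω) (S' : Finset Ω') (f : Ω' → α), S.Nonempty →
    ent (S ×ˢ S') (fun x => f x.2) = ent S' f) ∧
  (∀ (Ω Ω' α β : Type) (S : Finset Ω) (S' : Finset Ω') (f : Ω → α) (g : Ω' → β), S.Nonempty → S'.Nonempty →
    ent (S ×ˢ S') (fun x => (f x.1, g x.2)) = ent S f + ent S' g) ∧
  (∀ (Ω Ω' α : Type) (S : Finset Ω) (S' : Finset Ω') (F : Ω → Ω' → α), S.Nonempty → S'.Nonempty →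
    cent (S ×ˢ S') (fun x => F x.1 x.2) (fun x => x.1) = (∑ x ∈ S, ent S' (F x)) / (S.card : ℝ)) ∧
  (∀ (Ω Ω' α : Type) (S : Finset Ω) (S' : Finset Ω') (e : Ω → Ω') (f : Ω' → α),
    Set.BijOn e S S' → ent S (fun x => f (e x)) = ent S' f)

/-- (E6) a bounded second moment bounds the entropy of an integer vector -/
def ST_E6 : Prop :=
  ∀ (Ω : Type) (k : ℕ) (S : Finset Ω) (Z : Ω → Fin k → ℤ) (C : ℝ), S.Nonempty →
    (∀ i, (∑ x ∈ S, ((Z x i : ℤ) : ℝ) ^ 2) / (S.card : ℝ) ≤ C) → ent S Z ≤ k * (C + 2)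

/-- (E7) small information and `L¹` distance of the conditional laws -/
def ST_E7 : Prop :=
  ∀ (Ω α β : Type) (S : Finset Ω) (f : Ω → α) (g : Ω → β) (e e' : β) (τ : ℝ), 0 < τ → S.Nonempty →
    τ * S.card ≤ (fib S g e).card → τ * S.card ≤ (fib S g e').card → e ≠ e' →
    τ * (l1 (fib S g e) f (fib S g e') f) ^ 2 ≤ 8 * (ent S f - cent S f g)

/-- (E8) continuity of the conditional entropy in `L¹` -/
def ST_E8 : Prop :=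
  ∀ (Ω Ω' α β γ : Type) (S : Finset Ω) (S' : Finset Ω') (f : Ω → α) (f' : Ω' → α) (F : α → β) (G : α → γ)
    (K : ℕ) (x : ℝ), S.Nonempty → S'.Nonempty → 1 ≤ K →
    (∀ c, ∃ A : Finset β, A.card ≤ K ∧ ∀ a, G a = c → F a ∈ A) → l1 S f S' f' ≤ x → x ≤ 1 →
    cent S (fun ω => F (f ω)) (fun ω => G (f ω)) ≤
      cent S' (fun ω => F (f' ω)) (fun ω => G (f' ω)) + x * (Real.log K + 1) + Real.sqrt x

/-- (E9) amplification: `Q` independent copies -/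
def ST_E9 : Prop :=
  ∀ (Ω Ω' : Type) (k : ℕ) (S S' : Finset Ω) (S2 : Finset Ω') (T : Ω → Fin k → ℤ) (V : Ω' → Fin k → ℤ)
    (η : ℝ) (Q : ℕ), S.Nonempty → S'.Nonempty → S2.Nonempty → 1 ≤ Q →
    l1 (S ×ˢ S2) (fun x => T x.1 + V x.2) (S' ×ˢ S2) (fun x => T x.1 + V x.2) ≤ η →
    l1 ((Finset.range Q) ×ˢ (Fintype.piFinset (fun _ : Fin Q => S)) ×ˢ
          (Fintype.piFinset (fun _ : Fin Q => S')) ×ˢ S2)
        (fun x => (∑ i : Fin Q, if (i : ℕ) < x.1 then T (x.2.1 i) else T (x.2.2.1 i)) + V x.2.2.2)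
        ((Fintype.piFinset (fun _ : Fin Q => S')) ×ˢ S2)
        (fun x => (∑ i : Fin Q, T (x.1 i)) + V x.2) ≤ Q * η

/-- (E10) variance of sums of independent copies -/
def ST_E10 : Prop :=
  ∀ (Ω : Type) (S S' : Finset Ω) (f : Ω → ℝ) (Q : ℕ) (lo lo' w : ℝ), S.Nonempty → S'.Nonempty →
    (∀ x ∈ S, lo ≤ f x ∧ f x ≤ lo + w) → (∀ x ∈ S', lo' ≤ f x ∧ f x ≤ lo' + w) →
    ∀ A : ℕ, A ≤ Q →
    (∑ x ∈ (Fintype.piFinset (fun _ : Fin Q => S)) ×ˢ (Fintype.piFinset (fun _ : Fin Q => S')),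
      ((∑ i : Fin Q, if (i : ℕ) < A then f (x.1 i) else f (x.2 i)) -
        (A * ((∑ y ∈ S, f y) / S.card) + ((Q : ℝ) - A) * ((∑ y ∈ S', f y) / S'.card))) ^ 2) /
      ((((Fintype.piFinset (fun _ : Fin Q => S)) ×ˢ (Fintype.piFinset (fun _ : Fin Q => S'))).card : ℕ) : ℝ) ≤
      Q * w ^ 2

/-! ### statements: geometry of the systems -/

/-- (FRM) frames -/
def ST_FRM : Prop :=
  (∀ k m : ℕ, k ≤ m → ∃ π : Matrix (Fin k) (Fin m) ℝ, Frame π) ∧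
  (∀ (k m : ℕ) (π : Matrix (Fin k) (Fin m) ℝ), Frame π → ∀ i c, |π i c| ≤ 1) ∧
  (∀ (k m : ℕ) (π : Matrix (Fin k) (Fin m) ℝ), Frame π → ∀ (v : Fin m → ℝ) (X : ℝ), (∀ c, |v c| ≤ X) →
    ∀ i, |π.mulVec v i| ≤ m * X) ∧
  (∀ (k : ℕ) (y : Fin (k + 1) → ℝ), ∃ Q : Matrix (Fin k) (Fin (k + 1)) ℝ, Frame Q ∧ Q.mulVec y = 0) ∧
  (∀ (j k m : ℕ) (Q : Matrix (Fin j) (Fin k) ℝ) (π : Matrix (Fin k) (Fin m) ℝ), Frame Q → Frame π →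
    Frame (Q * π)) ∧
  (∀ m : ℕ, Frame (1 : Matrix (Fin m) (Fin m) ℝ)) ∧
  (∀ (k m : ℕ) (π : Matrix (Fin k) (Fin m) ℝ), Frame π → k ≤ m)

/-- (PB) concatenation and size of the points of a window -/
def ST_PB : Prop :=
  ∀ (m B : ℕ) (R t : ℝ) (ι : Type) (σ : Sys m ι), 2 ≤ B → 0 ≤ R → 0 ≤ t → t ≤ 1 → σ.Ok B R →
  (∀ (i n1 n2 : ℕ) (u : Fin n1 → ι) (v : Fin n2 → ι) (c : Fin m),
    σ.P B t i (n1 + n2) (Fin.append u v) c = (B : ℝ) ^ n2 * σ.P B t i n1 u c + σ.P B t (i + n1) n2 v c) ∧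
  (∀ (i n : ℕ) (u : Fin n → ι) (c : Fin m), |σ.P B t i n u c| ≤ (R + B) * (B : ℝ) ^ n) ∧
  (∀ (i n : ℕ) (u : Fin n → ι) (c : Fin m), 0 ≤ σ.D B i n u c ∧ σ.D B i n u c < (B : ℤ) ^ n) ∧
  (∀ (i n : ℕ), Function.Injective (σ.D B i n)) ∧
  (∀ (i n : ℕ) (u v : Fin n → ι) (c : Fin m), ∃ α : ℝ, |α| ≤ (2 * R) * (B : ℝ) ^ n ∧
    ∀ t' : ℝ, σ.P B t' i n u c - σ.P B t' i n v c = α + t' * ((σ.D B i n u c - σ.D B i n v c : ℤ) : ℝ))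

/-- (SUP) superadditivity and bounds -/
def ST_SUP : Prop :=
  ∀ (m B : ℕ) (R t : ℝ) (ι : Type) [Fintype ι] [Nonempty ι] (σ : Sys m ι) (k : ℕ), 1 ≤ m → 2 ≤ B → 0 ≤ R → 0 ≤ t →
    t ≤ 1 → σ.Ok B R → k ≤ m →
  (∀ (π : Matrix (Fin k) (Fin m) ℝ) (i n1 n2 : ℕ), Frame π →
    σ.hh B t π i n1 + σ.hh B t π (i + n1) n2 - cc m B R ≤ σ.hh B t π i (n1 + n2)) ∧
  (∀ (π : Matrix (Fin k) (Fin m) ℝ) (i n : ℕ), Frame π →
    0 ≤ σ.hh B t π i n ∧ σ.hh B t π i n ≤ k * n * Real.log B + cc m B R) ∧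
  (∀ (i n1 n2 : ℕ), σ.GG B t k i n1 + σ.GG B t k (i + n1) n2 - cc m B R ≤ σ.GG B t k i (n1 + n2)) ∧
  (∀ (i n : ℕ), 0 ≤ σ.GG B t k i n ∧ σ.GG B t k i n ≤ k * n * Real.log B + cc m B R) ∧
  (∀ (π : Matrix (Fin k) (Fin m) ℝ) (i n : ℕ), Frame π → σ.GG B t k i n ≤ σ.hh B t π i n) ∧
  (∀ (i n : ℕ), ∃ π : Matrix (Fin k) (Fin m) ℝ, Frame π ∧ σ.hh B t π i n ≤ σ.GG B t k i n + 1)

/-- (INC) entropy increments of a window dominate the entropies of its sub-blocks -/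
def ST_INC : Prop :=
  ∀ (m B : ℕ) (R : ℝ), 1 ≤ m → 2 ≤ B → 0 ≤ R → ∃ C : ℝ, 0 ≤ C ∧
  ∀ (ι : Type) [Fintype ι] [Nonempty ι] (σ : Sys m ι) (t : ℝ) (k : ℕ) (π : Matrix (Fin k) (Fin m) ℝ)
    (i n q lam : ℕ), 0 ≤ t → t ≤ 1 → σ.Ok B R → Frame π → q + lam ≤ n →
    σ.hh B t π (i + (n - (q + lam))) lam - C ≤
      ent (univ : Finset (Fin n → ι)) (fun v => cl B q (fl (π.mulVec (σ.P B t i n v)))) -
      ent (univ : Finset (Fin n → ι)) (fun v => cl B (q + lam) (fl (π.mulVec (σ.P B t i n v))))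

/-! ### statements: the step -/

/-- (PAIR) entropy of `T` on a scale and small growth give two separated pieces of `T` which `V` does not
distinguish -/
def ST_PAIR : Prop :=
  ∀ (B k w : ℕ) (h0 η3 : ℝ), 2 ≤ B → 0 < η3 → 2 * ((k + 1) * Real.log 2 + 1) < h0 → ∃ η' : ℝ, 0 < η' ∧
  ∀ (Ω Ω' : Type) (S : Finset Ω) (S2 : Finset Ω') (T : Ω → Fin k → ℤ) (V : Ω' → Fin k → ℤ) (s : ℕ),
    S.Nonempty → S2.Nonempty →
    h0 ≤ ent S (fun x => cl B s (T x)) - ent S (fun x => cl B (s + w) (T x)) →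
    cent (S ×ˢ S2) (fun x => T x.1 + V x.2) (fun x => cl B (s + w) (T x.1)) -
      cent (S ×ˢ S2) (fun x => T x.1 + V x.2) (fun x => cl B s (T x.1)) ≤ η' →
    ∃ e e' : Fin k → ℤ, (fib S (fun x => cl B s (T x)) e).Nonempty ∧ (fib S (fun x => cl B s (T x)) e').Nonempty ∧
      (∀ i, e i / (B : ℤ) ^ w = e' i / (B : ℤ) ^ w) ∧ (∃ i, 2 ≤ |e i - e' i|) ∧
      l1 (fib S (fun x => cl B s (T x)) e ×ˢ S2) (fun x => T x.1 + V x.2)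
        (fib S (fun x => cl B s (T x)) e' ×ˢ S2) (fun x => T x.1 + V x.2) ≤ η3

/-- (UPP) entropy on the scales `[q, p]` after adding `Q` small independent copies -/
def ST_UPP : Prop :=
  ∀ (B k : ℕ), 2 ≤ B → ∃ C : ℝ, 0 ≤ C ∧
  ∀ (Ω Ω' : Type) (S' : Finset Ω) (S2 : Finset Ω') (T : Ω → Fin k → ℤ) (V : Ω' → Fin k → ℤ)
    (e' : Fin k → ℤ) (s p q Q : ℕ), S'.Nonempty → S2.Nonempty → (∀ x ∈ S', cl B s (T x) = e') →
    Q = B ^ (p - s) → s ≤ q → q ≤ p → p + s ≤ 2 * q →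
    cent ((Fintype.piFinset (fun _ : Fin Q => S')) ×ˢ S2)
        (fun x => cl B q ((∑ i : Fin Q, T (x.1 i)) + V x.2))
        (fun x => cl B p ((∑ i : Fin Q, T (x.1 i)) + V x.2)) ≤
      ent S2 (fun v => cl B q (V v)) - ent S2 (fun v => cl B p (V v)) + C

/-- (LOW) entropy on the scales `[q, q + lam]` of the mixture: the sub-block is full in the directions
orthogonal to the displacement, and the displacement fills its own direction -/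
def ST_LOW : Prop :=
  ∀ (m B w : ℕ) (R : ℝ), 1 ≤ m → 2 ≤ B → 0 ≤ R → ∃ C : ℝ, 0 ≤ C ∧
  ∀ (ι : Type) [Fintype ι] [Nonempty ι] (σ : Sys m ι) (t : ℝ) (k : ℕ) (π : Matrix (Fin (k + 1)) (Fin m) ℝ)
    (i n q lam s Q : ℕ) (Ω : Type) (S S' : Finset Ω) (T : Ω → Fin (k + 1) → ℤ) (e e' : Fin (k + 1) → ℤ),
    0 ≤ t → t ≤ 1 → σ.Ok B R → Frame π → q + lam ≤ n → s ≤ q → q + lam + s ≤ 2 * q → Q = B ^ (q + lam - s) →
    S.Nonempty → S'.Nonempty → (∀ x ∈ S, cl B s (T x) = e) → (∀ x ∈ S', cl B s (T x) = e') →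
    (∀ i, e i / (B : ℤ) ^ w = e' i / (B : ℤ) ^ w) → (∃ i, 2 ≤ |e i - e' i|) →
    σ.GG B t k (i + (n - (q + lam))) lam + lam * Real.log B - C ≤
      cent ((Finset.range Q) ×ˢ (Fintype.piFinset (fun _ : Fin Q => S)) ×ˢ
          (Fintype.piFinset (fun _ : Fin Q => S')) ×ˢ (univ : Finset (Fin n → ι)))
        (fun x => cl B q ((∑ j : Fin Q, if (j : ℕ) < x.1 then T (x.2.1 j) else T (x.2.2.1 j)) +
          fl (π.mulVec (σ.P B t i n x.2.2.2))))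
        (fun x => cl B (q + lam) ((∑ j : Fin Q, if (j : ℕ) < x.1 then T (x.2.1 j) else T (x.2.2.1 j)) +
          fl (π.mulVec (σ.P B t i n x.2.2.2))))

/-- (PIG) pigeonhole over the scales: `e` is the normalised entropy of the block, `Ej`, `Ij`, `Fj` are the
increments of `T`, of the growth and of `V` over the `(M - 1) N` steps of length `lam` -/
def ST_PIG : Prop :=
  ∀ (M K : ℕ) (ε1 : ℝ), 2 ≤ M → 1 ≤ K → 0 < ε1 → ∃ θ ε κ : ℝ, 0 < θ ∧ 0 < ε ∧ ε ≤ ε1 / 8 ∧ M * ε ≤ ε1 / 4 ∧ 0 < κ ∧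
  ∀ C L : ℝ, 0 ≤ C → 0 < L → ∃ lam0 : ℕ, 1 ≤ lam0 ∧ ∀ lam : ℕ, lam0 ≤ lam → ∀ η' : ℝ, 0 < η' →
  ∃ η : ℝ, 0 < η ∧ ∃ N0 : ℕ, ∀ N : ℕ, N0 ≤ N → ∀ (e : ℝ) (Ej Ij Fj : ℕ → ℝ) (bad bad' : Finset ℕ),
    e ≤ K → (∀ j < (M - 1) * N, 0 ≤ Ej j ∧ Ej j ≤ K * lam * L) →
    ε1 / 2 * (N * lam * L) - C ≤ ∑ j ∈ Finset.range ((M - 1) * N), Ej j →
    (∀ j < (M - 1) * N, 0 ≤ Ij j) → ∑ j ∈ Finset.range ((M - 1) * N), Ij j ≤ M * (N * lam * L) * η + C →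
    (∀ j < (M - 1) * N, 0 ≤ Fj j) →
    ∑ j ∈ Finset.range ((M - 1) * N), Fj j ≤ ((M - 1) * e + ε) * (N * lam * L) + C →
    (∀ j < (M - 1) * N, j ∉ bad → (e - ε) * lam * L - C ≤ Fj j) →
    (bad.card : ℝ) ≤ κ * (M * N) → (bad'.card : ℝ) ≤ κ * (M * N) →
    ∃ j, 3 ≤ j ∧ j < (M - 1) * N ∧ θ * lam * L ≤ Ej j ∧ Ij j ≤ η' ∧ j - 3 ∉ bad' ∧
      Fj (j - 3) ≤ (e + ε1 / 8) * lam * L

/-- (SELA) selection of the scales -/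
def ST_SELA : Prop :=
  ∀ (m B μ k : ℕ) (R ε0 ε1 : ℝ), 1 ≤ m → 2 ≤ B → 0 ≤ R → 0 ≤ ε0 → 1 ≤ μ → k + 1 ≤ m → 0 < ε1 →
  ∃ θ ε κ : ℝ, 0 < θ ∧ 0 < ε ∧ ε ≤ ε1 / 8 ∧ 0 < κ ∧
  ∀ v : ℕ, ∃ a0, v ≤ a0 ∧ ∀ a, a0 ≤ a → ∀ η' : ℝ, 0 < η' → ∃ η : ℝ, 0 < η ∧ ∃ c1, a ≤ c1 ∧ ∀ c, c1 ≤ c →
  ∀ (ι : Type) [Fintype ι] [Nonempty ι] (σ : Sys m ι) (t : ℝ) (q0 : ℕ), σ.Ok B R → 0 ≤ t → t ≤ 1 →
    σ.ee B R t (k + 1) (c + μ) q0 -
      (∑ j ∈ Finset.range (2 ^ μ), σ.ee B R t (k + 1) c (q0 * 2 ^ μ + j)) / 2 ^ μ ≤ η →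
    (∀ j < 2 ^ μ, |σ.ee B R t (k + 1) c (q0 * 2 ^ μ + j) - σ.ee B R t (k + 1) (c + μ) q0| ≤ ε) →
    (((Finset.range (2 ^ (c + μ - a))).filter (fun j => σ.ee B R t (k + 1) a (q0 * 2 ^ (c + μ - a) + j) <
      σ.ee B R t (k + 1) (c + μ) q0 - ε)).card : ℝ) ≤ κ * 2 ^ (c + μ - a) →
    σ.Good B ε0 t (2 ^ μ) (q0 * 2 ^ (c + μ)) (2 ^ c) →
    (((Finset.range (2 ^ (c + μ - a))).filter (fun j => σ.ee B R t k a (q0 * 2 ^ (c + μ - a) + j) <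
      k - ε0 - ε)).card : ℝ) ≤ κ * 2 ^ (c + μ - a) →
    σ.ee B R t (k + 1) (c + μ) q0 < k + 1 - ε0 - ε1 →
    ∃ (π : Matrix (Fin (k + 1)) (Fin m) ℝ) (s q : ℕ), Frame π ∧ q + 2 ^ a ≤ (2 ^ μ - 1) * 2 ^ c ∧
      s + 2 * 2 ^ a ≤ q ∧ q ≤ s + 3 * 2 ^ a ∧
      θ * 2 ^ v * Real.log B ≤
        ent (univ : Finset (Fin (2 ^ c) → ι)) (fun u => cl B s (fl ((B : ℝ) ^ ((2 ^ μ - 1) * 2 ^ c) •
          π.mulVec (σ.P B t (q0 * 2 ^ (c + μ)) (2 ^ c) u)))) -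
        ent (univ : Finset (Fin (2 ^ c) → ι)) (fun u => cl B (s + 2 ^ v) (fl ((B : ℝ) ^ ((2 ^ μ - 1) * 2 ^ c) •
          π.mulVec (σ.P B t (q0 * 2 ^ (c + μ)) (2 ^ c) u)))) ∧
      cent ((univ : Finset (Fin (2 ^ c) → ι)) ×ˢ (univ : Finset (Fin ((2 ^ μ - 1) * 2 ^ c) → ι)))
          (fun x => fl ((B : ℝ) ^ ((2 ^ μ - 1) * 2 ^ c) • π.mulVec (σ.P B t (q0 * 2 ^ (c + μ)) (2 ^ c) x.1)) +
            fl (π.mulVec (σ.P B t (q0 * 2 ^ (c + μ) + 2 ^ c) ((2 ^ μ - 1) * 2 ^ c) x.2)))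
          (fun x => cl B (s + 2 ^ v) (fl ((B : ℝ) ^ ((2 ^ μ - 1) * 2 ^ c) •
            π.mulVec (σ.P B t (q0 * 2 ^ (c + μ)) (2 ^ c) x.1)))) -
        cent ((univ : Finset (Fin (2 ^ c) → ι)) ×ˢ (univ : Finset (Fin ((2 ^ μ - 1) * 2 ^ c) → ι)))
          (fun x => fl ((B : ℝ) ^ ((2 ^ μ - 1) * 2 ^ c) • π.mulVec (σ.P B t (q0 * 2 ^ (c + μ)) (2 ^ c) x.1)) +
            fl (π.mulVec (σ.P B t (q0 * 2 ^ (c + μ) + 2 ^ c) ((2 ^ μ - 1) * 2 ^ c) x.2)))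
          (fun x => cl B s (fl ((B : ℝ) ^ ((2 ^ μ - 1) * 2 ^ c) •
            π.mulVec (σ.P B t (q0 * 2 ^ (c + μ)) (2 ^ c) x.1)))) ≤ η' ∧
      ent (univ : Finset (Fin ((2 ^ μ - 1) * 2 ^ c) → ι)) (fun v' => cl B q (fl (π.mulVec
          (σ.P B t (q0 * 2 ^ (c + μ) + 2 ^ c) ((2 ^ μ - 1) * 2 ^ c) v')))) -
        ent (univ : Finset (Fin ((2 ^ μ - 1) * 2 ^ c) → ι)) (fun v' => cl B (q + 2 ^ a) (fl (π.mulVec
          (σ.P B t (q0 * 2 ^ (c + μ) + 2 ^ c) ((2 ^ μ - 1) * 2 ^ c) v')))) ≤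
        (k + 1 - ε0 - 7 / 8 * ε1) * 2 ^ a * Real.log B ∧
      (k - ε0 - ε) * 2 ^ a * Real.log B ≤
        σ.GG B t k (q0 * 2 ^ (c + μ) + 2 ^ c + ((2 ^ μ - 1) * 2 ^ c - (q + 2 ^ a))) (2 ^ a)

/-- (STEP) an almost additive, locally uniform block with good Diophantine properties and full in lower
rank is full -/
def ST_STEP : Prop :=
  ∀ (m B μ k : ℕ) (R ε0 ε1 : ℝ), 1 ≤ m → 2 ≤ B → 0 ≤ R → 0 ≤ ε0 → 1 ≤ μ → k + 1 ≤ m → 0 < ε1 →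
  ∃ ε κ : ℝ, 0 < ε ∧ 0 < κ ∧ ∃ a0 : ℕ, ∀ a, a0 ≤ a → ∃ η : ℝ, 0 < η ∧ ∃ c1, a ≤ c1 ∧ ∀ c, c1 ≤ c →
  ∀ (ι : Type) [Fintype ι] [Nonempty ι] (σ : Sys m ι) (t : ℝ) (q0 : ℕ), σ.Ok B R → 0 ≤ t → t ≤ 1 →
    σ.ee B R t (k + 1) (c + μ) q0 -
      (∑ j ∈ Finset.range (2 ^ μ), σ.ee B R t (k + 1) c (q0 * 2 ^ μ + j)) / 2 ^ μ ≤ η →
    (∀ j < 2 ^ μ, |σ.ee B R t (k + 1) c (q0 * 2 ^ μ + j) - σ.ee B R t (k + 1) (c + μ) q0| ≤ ε) →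
    (((Finset.range (2 ^ (c + μ - a))).filter (fun j => σ.ee B R t (k + 1) a (q0 * 2 ^ (c + μ - a) + j) <
      σ.ee B R t (k + 1) (c + μ) q0 - ε)).card : ℝ) ≤ κ * 2 ^ (c + μ - a) →
    σ.Good B ε0 t (2 ^ μ) (q0 * 2 ^ (c + μ)) (2 ^ c) →
    (((Finset.range (2 ^ (c + μ - a))).filter (fun j => σ.ee B R t k a (q0 * 2 ^ (c + μ - a) + j) <
      k - ε0 - ε)).card : ℝ) ≤ κ * 2 ^ (c + μ - a) →
    k + 1 - ε0 - ε1 ≤ σ.ee B R t (k + 1) (c + μ) q0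

/-! ### statements: the tree argument and the induction on the rank -/

/-- (TREE) energy increment on a dyadic tree -/
def ST_TREE : Prop :=
  ∀ (K ε κ β : ℝ) (μ a0 : ℕ) (η : ℕ → ℝ) (c1 : ℕ → ℕ), 1 ≤ K → 0 < ε → 0 < κ → 0 < β → 1 ≤ μ →
  (∀ a, 0 < η a) → ∃ a1, a0 ≤ a1 ∧ ∀ A, a1 ≤ A → ∀ e : ℕ → ℕ → ℝ,
    (∀ a q, a0 ≤ a → a < A → q < 2 ^ (A - (a + 1)) → (e a (2 * q) + e a (2 * q + 1)) / 2 ≤ e (a + 1) q) →
    (∀ a q, a0 ≤ a → a ≤ A → q < 2 ^ (A - a) → |e a q| ≤ K) →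
    ∃ a c, a0 ≤ a ∧ a ≤ c ∧ c1 a ≤ c ∧ c + μ ≤ a1 ∧
      (((Finset.range (2 ^ (A - (c + μ)))).filter (fun q =>
        ¬ (e (c + μ) q - (∑ j ∈ Finset.range (2 ^ μ), e c (q * 2 ^ μ + j)) / 2 ^ μ ≤ η a ∧
          (∀ j < 2 ^ μ, |e c (q * 2 ^ μ + j) - e (c + μ) q| ≤ ε) ∧
          (((Finset.range (2 ^ (c + μ - a))).filter (fun j => e a (q * 2 ^ (c + μ - a) + j) <
            e (c + μ) q - ε)).card : ℝ) ≤ κ * 2 ^ (c + μ - a)))).card : ℝ) ≤ β * 2 ^ (A - (c + μ))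

open Classical in
/-- (CLAIM) for every rank most blocks are full -/
def ST_CLAIM : Prop :=
  ∀ (m B μ : ℕ) (R ε0 : ℝ), 1 ≤ m → 2 ≤ B → 0 ≤ R → 0 ≤ ε0 → 1 ≤ μ → ∀ k ≤ m, ∀ ε1 β : ℝ, 0 < ε1 → 0 < β →
  ∃ ϑ : ℝ, 0 < ϑ ∧ ∀ c0 : ℕ, ∃ a0, c0 ≤ a0 ∧ ∀ A, a0 ≤ A →
  ∀ (ι : Type) [Fintype ι] [Nonempty ι] (σ : Sys m ι) (t : ℝ), σ.Ok B R → 0 ≤ t → t ≤ 1 →
    (∀ c, c0 ≤ c → c ≤ a0 → (((Finset.range (2 ^ (A - c))).filter (fun q =>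
      ¬ σ.Good B ε0 t (2 ^ μ) (q * 2 ^ c) (2 ^ c))).card : ℝ) ≤ ϑ * 2 ^ (A - c)) →
    ∀ a, a0 ≤ a → a ≤ A → (((Finset.range (2 ^ (A - a))).filter (fun q =>
      σ.ee B R t k a q < k - ε0 - ε1)).card : ℝ) ≤ β * 2 ^ (A - a)

end Pool.Agent.Helper70.DK
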