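import Mathlib

/-! Sticky position maps of Kakeya sets: definitions used in the statements of the final theorems. -/

namespace Pool.Agent.Helper70.DK

/-- the point with horizontal part `y` and height `t` -/
noncomputable def pt {m : ℕ} (y : Fin m → ℝ) (t : ℝ) : EuclideanSpace ℝ (Fin (m + 1)) :=
  WithLp.toLp 2 (Fin.snoc y t)

/-- the half-open unit cube -/
def cube (m : ℕ) : Set (Fin m → ℝ) := {x | ∀ c, 0 ≤ x c ∧ x c < 1}

/-- the lattice points of `[0, N) ^ m` -/
def grid (m N : ℕ) : Set (Fin m → ℤ) := {i | ∀ c, 0 ≤ i c ∧ i c < (N : ℤ)}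

open Classical in
/-- the magnification of `a` on the `b`-adic cube `(i + [0, 1) ^ m) / b ^ j`, normalised to vanish at `0` (and
extended by `0` outside the unit cube) -/
noncomputable def pat {m : ℕ} (a : (Fin m → ℝ) → Fin m → ℝ) (b j : ℕ) (i : Fin m → ℤ) :
    (Fin m → ℝ) → Fin m → ℝ :=
  fun x c => if x ∈ cube m then
    (b : ℝ) ^ j * (a (fun c' => (x c' + i c') / (b : ℝ) ^ j) c - a (fun c' => (i c' : ℝ) / (b : ℝ) ^ j) c) else 0

/-- `a` is `R`-Lipschitz with respect to the `b`-adic cubes -/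
def Sticky {m : ℕ} (a : (Fin m → ℝ) → Fin m → ℝ) (b : ℕ) (R : ℝ) : Prop :=
  ∀ j, ∀ i ∈ grid m (b ^ j), ∀ x ∈ cube m, ∀ c, |pat a b j i x c| ≤ R

/-- at every scale there are at most `r` different magnifications -/
def FewPat {m : ℕ} (a : (Fin m → ℝ) → Fin m → ℝ) (b r : ℕ) : Prop :=
  ∀ j, (pat a b j '' grid m (b ^ j)).ncard ≤ r

/-- the increments of `a` from the corner of a cube to the corners of its `b ^ m` children, magnified to unit
scale, take finitely many values -/
def FinInc {m : ℕ} (a : (Fin m → ℝ) → Fin m → ℝ) (b : ℕ) : Prop :=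
  {v : Fin m → ℝ | ∃ j, ∃ i ∈ grid m (b ^ j), ∃ d ∈ grid m b, v = pat a b j i (fun c => (d c : ℝ) / b)}.Finite

end Pool.Agent.Helper70.DK
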