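import Pool.Agent.Helper70.DK.Defs
import Pool.Agent.Helper70.DK.Stick

/-! Digit Kakeya sets: Diophantine part, geometric measure theory, final statements. -/

namespace Pool.Agent.Helper70.DK

open Finset MeasureTheory

/-! ### Diophantine part -/

/-- (SUBL) sublevel sets of polynomials with leading coefficient of modulus at least one -/
def ST_SUBL : Prop :=
  ∀ (p : Polynomial ℝ) (ε : ℝ), 1 ≤ |p.leadingCoeff| → 1 ≤ p.natDegree → 0 < ε →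
    volume {t : ℝ | |p.eval t| < ε} ≤ ENNReal.ofReal (2 * p.natDegree * ε ^ ((1 : ℝ) / p.natDegree))

/-- (DMEAS) measure of the parameters without the Diophantine property -/
def ST_DMEAS : Prop :=
  ∀ (m K B : ℕ) (ι : Type) [Fintype ι] (σ : Sys m ι) (i n : ℕ), 1 ≤ m → 2 ≤ B → Fintype.card ι ≤ B ^ m →
    volume {t : ℝ | ¬ σ.Dio B (m * (2 * m ^ 2 + K)) t i n} ≤
      ENNReal.ofReal (2 * (m : ℝ) ^ (m + 2) / (B : ℝ) ^ (K * n))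

/-- (DPTS) integer points of a box in a translate of a subspace -/
def ST_DPTS : Prop :=
  ∀ (m N : ℕ) (Γ : Submodule ℝ (Fin m → ℝ)) (F : Finset (Fin m → ℤ)), 1 ≤ N →
    (∀ z ∈ F, ∀ c, 0 ≤ z c ∧ z c < (N : ℤ)) →
    (∀ z ∈ F, ∀ z' ∈ F, (fun c => ((z c - z' c : ℤ) : ℝ)) ∈ Γ) → F.card ≤ N ^ Module.finrank ℝ Γ

/-- (DSUB) under the Diophantine property near coincidences of `π P` have their directions in one subspace of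
dimension `m - k` -/
def ST_DSUB : Prop :=
  ∀ (m B C M : ℕ) (R : ℝ), 1 ≤ m → 2 ≤ B → 0 ≤ R → C + m + 1 ≤ M → ∃ n0 : ℕ,
  ∀ (ι : Type) [Fintype ι] (σ : Sys m ι) (t : ℝ) (i n k : ℕ) (π : Matrix (Fin k) (Fin m) ℝ), σ.Ok B R → 0 ≤ t →
    t ≤ 1 → n0 ≤ n → σ.Dio B C t i n → Frame π → ∃ Γ : Submodule ℝ (Fin m → ℝ), Module.finrank ℝ Γ + k ≤ m ∧
    ∀ u v : Fin n → ι, (∀ x, |π.mulVec (σ.P B t i n u) x - π.mulVec (σ.P B t i n v) x| <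
      ((B : ℝ) ^ ((M - 1) * n))⁻¹) → (fun c => ((σ.D B i n u c - σ.D B i n v c : ℤ) : ℝ)) ∈ Γ

/-- (DGOOD) the Diophantine property gives almost full entropy at fine scales, for all frames -/
def ST_DGOOD : Prop :=
  ∀ (m B C M : ℕ) (R ε0 : ℝ), 1 ≤ m → 2 ≤ B → 0 ≤ R → 0 ≤ ε0 → C + m + 1 ≤ M → ∃ n0 : ℕ,
  ∀ (ι : Type) [Fintype ι] [Nonempty ι] (σ : Sys m ι) (t : ℝ) (i n : ℕ), σ.Ok B R → 0 ≤ t → t ≤ 1 →
    (m - ε0) * Real.log B ≤ Real.log (Fintype.card ι) → n0 ≤ n → σ.Dio B C t i n → σ.Good B ε0 t M i n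

/-- (COREM) for most parameters the points of the window `[0, N)` have almost full entropy -/
def ST_COREM : Prop :=
  ∀ (m B : ℕ) (R ε0 ε1 : ℝ), 1 ≤ m → 2 ≤ B → 0 ≤ R → 0 ≤ ε0 → 0 < ε1 → ∃ N0 : ℕ, ∀ N, N0 ≤ N →
  ∀ (ι : Type) [Fintype ι] [Nonempty ι] (σ : Sys m ι), σ.Ok B R →
    (m - ε0) * Real.log B ≤ Real.log (Fintype.card ι) →
    volume {t : ℝ | 0 ≤ t ∧ t ≤ 1 ∧ ent (univ : Finset (Fin N → ι)) (fun u => fl (σ.P B t 0 N u)) <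
      (m - ε0 - ε1) * N * Real.log B} ≤ ENNReal.ofReal (1 / 2)

/-- (COREH) finitely many patterns: for almost every parameter most blocks have almost full entropy -/
def ST_COREH : Prop :=
  ∀ (m B : ℕ) (R ε0 ε1 : ℝ) (amin : ℕ), 1 ≤ m → 2 ≤ B → 0 ≤ R → 0 ≤ ε0 → 0 < ε1 →
  ∀ (ι : Type) [Fintype ι] [Nonempty ι] (σ : Sys m ι), σ.Ok B R →
    (m - ε0) * Real.log B ≤ Real.log (Fintype.card ι) →
    (Set.range fun j => (σ.dg j, σ.ph j)).Finite →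
    ∀ᵐ t : ℝ, 0 ≤ t → t ≤ 1 → ∃ a, amin ≤ a ∧ ∃ N0 : ℕ, ∀ N, N0 ≤ N →
      (((Finset.range N).filter (fun q => ent (univ : Finset (Fin (2 ^ a) → ι))
        (fun u => fl (σ.P B t (q * 2 ^ a) (2 ^ a) u)) < (m - ε0 - ε1) * 2 ^ a * Real.log B)).card : ℝ) ≤ ε1 * N

/-! ### geometric measure theory -/

/-- (VOL) many separated points on the slices give a large neighbourhood -/
def ST_VOL : Prop :=
  ∀ m : ℕ, ∃ c : ℝ, 0 < c ∧ ∀ (E : Set (EuclideanSpace ℝ (Fin (m + 1)))) (T : Set ℝ) (ρ X : ℝ),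
    0 < ρ → ρ ≤ 1 → 0 ≤ X → T ⊆ Set.Icc 0 1 → ENNReal.ofReal (1 / 2) ≤ volume T →
    (∀ t ∈ T, ∃ (F : Finset (Fin m → ℝ)) (x0 : Fin m → ℝ), (∀ y ∈ F, pt y t ∈ E) ∧
      (∀ y ∈ F, ∀ y' ∈ F, fl (fun c => (y c - x0 c) / ρ) = fl (fun c => (y' c - x0 c) / ρ) → y = y') ∧
      X ≤ F.card) →
    ENNReal.ofReal (c * X * ρ ^ m) ≤ volume (Metric.thickening ρ E)

/-- (SLICE) dimension of a set with many large slices -/
def ST_SLICE : Prop :=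
  ∀ (m : ℕ) (E : Set (EuclideanSpace ℝ (Fin (m + 1)))) (T : Set ℝ) (s : ℝ), 0 < s → volume T ≠ 0 →
    (∀ t ∈ T, ENNReal.ofReal s ≤ dimH {y : Fin m → ℝ | pt y t ∈ E}) → ENNReal.ofReal (s + 1) ≤ dimH E

/-- (MORAN) dimension of homogeneous Moran sets with separated pieces -/
def ST_MORAN : Prop :=
  ∀ (m Λ : ℕ) (R s0 c0 : ℝ) (F : Set (Fin m → ℝ)) (x0 : Fin m → ℝ) (n : ℕ → ℕ)
    (z : ℕ → ℕ → Fin m → ℝ), 2 ≤ Λ → 0 ≤ R → 0 < s0 → 0 < c0 → (∀ j, 1 ≤ n j) →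
    (∀ j s c, s < n j → |z j s c| ≤ R * Λ) →
    (∀ j s s', s < n j → s' < n j → s ≠ s' → ∃ c, 4 * R + 1 ≤ |z j s c - z j s' c|) →
    (∀ ω : ℕ → ℕ, (∀ j, ω j < n j) → (fun c => x0 c + ∑' j : ℕ, z j (ω j) c / (Λ : ℝ) ^ (j + 1)) ∈ F) →
    (∀ j : ℕ, c0 * (Λ : ℝ) ^ (s0 * (j : ℝ)) ≤ ∏ i ∈ Finset.range j, (n i : ℝ)) →
    ENNReal.ofReal s0 ≤ dimH F

/-! ### sticky position maps with few patterns -/

/-- (AUT) extraction of a digit system -/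
def ST_AUT : Prop :=
  ∀ (m b r L K : ℕ) (R : ℝ) (a : (Fin m → ℝ) → Fin m → ℝ), 1 ≤ m → 2 ≤ b → 1 ≤ L → 0 ≤ R → 1 ≤ K →
    K * r ≤ (b ^ L - 1) ^ m → Sticky a b R → FewPat a b r →
    ∃ σ : Sys m (Fin K), σ.Ok (b ^ L) ((b : ℝ) ^ L * R) ∧
      (∀ (N : ℕ) (u : Fin N → Fin K), ∃ x ∈ cube m, ∀ (t : ℝ) (c : Fin m),
        a x c + t * x c = a 0 c + σ.P (b ^ L) t 0 N u c / ((b : ℝ) ^ L) ^ N) ∧
      (∀ ω : ℕ → Fin K, ∃ x ∈ cube m, ∀ (t : ℝ) (c : Fin m),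
        a x c + t * x c = a 0 c + ∑' j : ℕ, (σ.ph j (ω j) c + t * (σ.dg j (ω j) c : ℝ)) / ((b : ℝ) ^ L) ^ (j + 1)) ∧
      (FinInc a b → (Set.range fun j => (σ.dg j, σ.ph j)).Finite)

/-- (M) Minkowski dimension: sticky Kakeya sets with few patterns at every scale -/
def ST_MFIN : Prop :=
  ∀ (m b r : ℕ) (R ε : ℝ), 1 ≤ m → 2 ≤ b → 0 ≤ R → 0 < ε → ∃ c : ℝ, 0 < c ∧
    ∀ (a : (Fin m → ℝ) → Fin m → ℝ) (E : Set (EuclideanSpace ℝ (Fin (m + 1)))), Sticky a b R → FewPat a b r →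
      (∀ x ∈ cube m, ∀ t : ℝ, 0 ≤ t → t ≤ 1 → pt (fun c => a x c + t * x c) t ∈ E) →
      ∀ δ : ℝ, 0 < δ → δ < 1 → ENNReal.ofReal (c * δ ^ ε) ≤ volume (Metric.thickening δ E)

/-- (H) Hausdorff dimension: sticky Kakeya sets with few patterns at every scale and finitely many increments -/
def ST_HFIN : Prop :=
  ∀ (m b r : ℕ) (R : ℝ), 1 ≤ m → 2 ≤ b → 0 ≤ R →
    ∀ (a : (Fin m → ℝ) → Fin m → ℝ) (E : Set (EuclideanSpace ℝ (Fin (m + 1)))), Sticky a b R → FewPat a b r →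
      FinInc a b →
      (∀ x ∈ cube m, ∀ t : ℝ, 0 ≤ t → t ≤ 1 → pt (fun c => a x c + t * x c) t ∈ E) →
      dimH E = (m : ENNReal) + 1

end Pool.Agent.Helper70.DK
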