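import Pool.Agent.Helper70.DK.Defs2
import Pool.Agent.Helper70.DK.Cplx

/-! Stronger forms with the local pattern complexity `Cplx` instead of `FewPat`. -/

namespace Pool.Agent.Helper70.DK

open Finset MeasureTheory

/-- (CPOW) submultiplicativity of the complexity -/
def ST_CPOW : Prop :=
  ∀ (m b L N p : ℕ) (a : (Fin m → ℝ) → Fin m → ℝ), 1 ≤ m → 2 ≤ b → Cplx a b L N → Cplx a b (p * L) (N ^ p)

/-- (AUTC) extraction of a digit system, local complexity -/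
def ST_AUTC : Prop :=
  ∀ (m b N L K : ℕ) (R : ℝ) (a : (Fin m → ℝ) → Fin m → ℝ), 1 ≤ m → 2 ≤ b → 1 ≤ L → 0 ≤ R → 1 ≤ K →
    K * N ≤ (b ^ L - 1) ^ m → Sticky a b R → Cplx a b L N →
    ∃ σ : Sys m (Fin K), σ.Ok (b ^ L) ((b : ℝ) ^ L * R) ∧
      (∀ (N : ℕ) (u : Fin N → Fin K), ∃ x ∈ cube m, ∀ (t : ℝ) (c : Fin m),
        a x c + t * x c = a 0 c + σ.P (b ^ L) t 0 N u c / ((b : ℝ) ^ L) ^ N) ∧
      (∀ ω : ℕ → Fin K, ∃ x ∈ cube m, ∀ (t : ℝ) (c : Fin m),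
        a x c + t * x c = a 0 c + ∑' j : ℕ, (σ.ph j (ω j) c + t * (σ.dg j (ω j) c : ℝ)) / ((b : ℝ) ^ L) ^ (j + 1)) ∧
      (FinInc a b → (Set.range fun j => (σ.dg j, σ.ph j)).Finite)

/-- (M') Minkowski dimension of sticky Kakeya sets: at least `n` minus the pattern entropy -/
def ST_MFINC : Prop :=
  ∀ (m b L N : ℕ) (R ε : ℝ), 1 ≤ m → 2 ≤ b → 1 ≤ L → 1 ≤ N → 0 ≤ R → 0 < ε → ∃ c : ℝ, 0 < c ∧
    ∀ (a : (Fin m → ℝ) → Fin m → ℝ) (E : Set (EuclideanSpace ℝ (Fin (m + 1)))), Sticky a b R → Cplx a b L N →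
      (∀ x ∈ cube m, ∀ t : ℝ, 0 ≤ t → t ≤ 1 → pt (fun c => a x c + t * x c) t ∈ E) →
      ∀ δ : ℝ, 0 < δ → δ < 1 →
        ENNReal.ofReal (c * δ ^ (Real.log N / (L * Real.log b) + ε)) ≤ volume (Metric.thickening δ E)

/-- (H') Hausdorff dimension, finitely many increments -/
def ST_HFINC : Prop :=
  ∀ (m b L N : ℕ) (R : ℝ), 1 ≤ m → 2 ≤ b → 1 ≤ L → 1 ≤ N → 0 ≤ R →
    ∀ (a : (Fin m → ℝ) → Fin m → ℝ) (E : Set (EuclideanSpace ℝ (Fin (m + 1)))), Sticky a b R → Cplx a b L N →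
      FinInc a b →
      (∀ x ∈ cube m, ∀ t : ℝ, 0 ≤ t → t ≤ 1 → pt (fun c => a x c + t * x c) t ∈ E) →
      ENNReal.ofReal ((m : ℝ) + 1 - Real.log N / (L * Real.log b)) ≤ dimH E

end Pool.Agent.Helper70.DK
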