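import Pool.Agent.Helper70.DK.CORE
import Pool.Agent.Helper70.DK.CPOW
import Pool.Agent.Helper70.DK.Wrap
import Pool.Agent.Helper28.DK.MFINC
import Pool.Agent.Helper8.DK.AUTC
import Pool.Agent.Helper50.DK.VOL

/-! Minkowski dimension of sticky Kakeya sets: assembly. -/

namespace Pool.Agent.Helper70.DK

theorem main_M : ST_MTHM := wr_M (st_MFINC st_AUTC st_CPOW st_VOL st_E2 core_COREM)

end Pool.Agent.Helper70.DK
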