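import Pool.Agent.Helper70.DK.Main
import Pool.Agent.Helper34.DK.HFINC
import Pool.Agent.Helper61.DK.SLICE
import Pool.Agent.Helper67.DK.MORAN

/-! Hausdorff dimension of sticky Kakeya sets with finitely many increments: assembly. -/

namespace Pool.Agent.Helper70.DK

theorem main_H : ST_HTHM := wr_H (st_HFINC core_COREH st_SLICE st_MORAN st_AUTC st_CPOW st_PB st_E2)

end Pool.Agent.Helper70.DK
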